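import Pool.Agent.Lib.MP_b5021c_nt.W.H80.Sp

/-!
# MP_b5021c_nt, all `θ`: the windows (finding 3510)
-/

namespace Pool.Agent.B5.Nr.Sch

open Polynomial

/-- The data of one ray over `ℤ` (class `P(1/a)`, ray coefficient `X f`). -/
structure Loc (Q f : ℤ[X]) (a : ℝ) : Prop where
  a0 : 0 < a
  a1 : a < 1
  q0 : Q.coeff 0 = 1
  le : ∀ z : ℂ, ‖z‖ = 1 → ‖aeval z f‖ ≤ ‖aeval z Q‖
  s : ∃ s : ℝ[X], Q.map (Int.castRingHom ℝ) = (X - C a) * s ∧ ∀ z : ℂ, ‖z‖ ≤ 1 → aeval z s ≠ 0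

theorem aeval_map_real (P : ℤ[X]) (z : ℂ) : aeval z (P.map (Int.castRingHom ℝ)) = aeval z P := by
  have h : (Int.castRingHom ℝ) = algebraMap ℤ ℝ := rfl
  rw [h, aeval_map_algebraMap]

/-- On the circle `|z - a| = |1 - a z|`. -/
theorem circ (a : ℝ) (z : ℂ) (hz : ‖z‖ = 1) : ‖z - a‖ = ‖1 - a * z‖ := by
  have h1 : ‖z - a‖ ^ 2 = ‖1 - a * z‖ ^ 2 := by
    have h2 : z.re * z.re + z.im * z.im = 1 := by
      rw [← Complex.normSq_apply, Complex.normSq_eq_norm_sq, hz, one_pow]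
    rw [Complex.sq_norm, Complex.sq_norm, Complex.normSq_apply, Complex.normSq_apply]
    simp only [Complex.sub_re, Complex.sub_im, Complex.mul_re, Complex.mul_im,
      Complex.ofReal_re, Complex.ofReal_im, zero_mul, sub_zero, add_zero, Complex.one_re,
      Complex.one_im, zero_sub]
    linear_combination (1 - a ^ 2) * h2
  nlinarith [norm_nonneg (z - a), norm_nonneg (1 - a * z),
    sq_nonneg (‖z - a‖ - ‖1 - a * z‖), sq_nonneg (‖z - a‖ + ‖1 - a * z‖)]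

/-- The Schur pair of a ray. -/
theorem Loc.sp {Q f : ℤ[X]} {a : ℝ} (h : Loc Q f a) : ∃ s : ℝ[X],
    Q.map (Int.castRingHom ℝ) = (X - C a) * s ∧
    SP (f.map (Int.castRingHom ℝ)) (s * (1 - C a * X)) ∧
    s.coeff 0 = -a⁻¹ ∧ s.coeff 1 = -a⁻¹ ^ 2 - a⁻¹ * Q.coeff 1 ∧
    s.coeff 2 = -a⁻¹ ^ 3 - a⁻¹ ^ 2 * Q.coeff 1 - a⁻¹ * Q.coeff 2 ∧
    ∀ x : ℝ, 0 ≤ x → x ≤ 1 → s.eval x < 0 := by
  obtain ⟨s, hs, hnz⟩ := h.s
  have ha := h.a0
  have ha0 : a ≠ 0 := ha.ne'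
  have e0 : (Q.map (Int.castRingHom ℝ)).coeff 0 = 1 := by
    rw [coeff_map, h.q0]; simp
  have e1 : (Q.map (Int.castRingHom ℝ)).coeff 1 = Q.coeff 1 := by rw [coeff_map]; rfl
  have e2 : (Q.map (Int.castRingHom ℝ)).coeff 2 = Q.coeff 2 := by rw [coeff_map]; rfl
  have c0 : ((X - C a) * s).coeff 0 = -(a * s.coeff 0) := by
    rw [sub_mul, coeff_sub, coeff_X_mul_zero, coeff_C_mul, zero_sub]
  have c1 : ((X - C a) * s).coeff 1 = s.coeff 0 - a * s.coeff 1 := by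
    rw [sub_mul, coeff_sub, coeff_X_mul, coeff_C_mul]
  have c2 : ((X - C a) * s).coeff 2 = s.coeff 1 - a * s.coeff 2 := by
    rw [sub_mul, coeff_sub, coeff_X_mul, coeff_C_mul]
  rw [hs, c0] at e0
  rw [hs, c1] at e1
  rw [hs, c2] at e2
  have s0 : s.coeff 0 = -a⁻¹ := by
    field_simp
    linarith
  have s1 : s.coeff 1 = -a⁻¹ ^ 2 - a⁻¹ * Q.coeff 1 := by
    have : a * s.coeff 1 = s.coeff 0 - Q.coeff 1 := by linarith
    rw [s0] at this
    field_simp at this ⊢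
    linarith
  have s2 : s.coeff 2 = -a⁻¹ ^ 3 - a⁻¹ ^ 2 * Q.coeff 1 - a⁻¹ * Q.coeff 2 := by
    have : a * s.coeff 2 = s.coeff 1 - Q.coeff 2 := by linarith
    rw [s1] at this
    have h3 : s.coeff 2 = a⁻¹ * (a * s.coeff 2) := by rw [inv_mul_cancel_left₀ ha0]
    rw [h3, this]
    ring
  have hsp : SP (f.map (Int.castRingHom ℝ)) (s * (1 - C a * X)) := by
    refine SP.of_circle (fun z hz h0 => ?_) (fun z hz => ?_)
    · rw [map_mul] at h0
      rcases mul_eq_zero.mp h0 with h1 | h1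
      · exact hnz z hz h1
      · have h2 : (1 : ℂ) - a * z = 0 := by simpa using h1
        have h3 : ‖(a : ℂ) * z‖ = 1 := by
          rw [sub_eq_zero] at h2
          rw [← h2, norm_one]
        rw [norm_mul, Complex.norm_real, Real.norm_eq_abs, abs_of_pos ha] at h3
        nlinarith [h.a1, norm_nonneg z]
    · rw [aeval_map_real]
      refine (h.le z hz).trans (le_of_eq ?_)
      rw [← aeval_map_real, hs, map_mul, map_mul, norm_mul, norm_mul, mul_comm]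
      congr 1
      have h1 : aeval z (X - C a) = z - a := by simp
      have h2 : aeval z (1 - C a * X) = 1 - a * z := by simp
      rw [h1, h2, circ a z hz]
  refine ⟨s, hs, hsp, s0, s1, s2, fun x hx0 hx1 => ?_⟩
  have h1 := hsp.sign hx0 hx1
  have h2 : (s * (1 - C a * X)).eval 0 = -a⁻¹ := by
    rw [eval_mul, ← coeff_zero_eq_eval_zero, s0]
    simp
  have h3 : (s * (1 - C a * X)).eval x = s.eval x * (1 - a * x) := by
    rw [eval_mul]; simp
  rw [h2, h3] at h1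
  have h4 : 0 < 1 - a * x := by nlinarith [h.a1]
  have h5 : 0 < a⁻¹ := inv_pos.mpr ha
  by_contra hcon
  push Not at hcon
  have h6 : 0 ≤ a⁻¹ * (s.eval x * (1 - a * x)) := mul_nonneg h5.le (mul_nonneg hcon h4.le)
  linarith

/-! ## The steps -/

/-- Numbers attached to a ray with `f(0) = 1`, at a real point `p`: three Schur steps. `n` and
`g2` are the coefficients of `f/Q = 1 + n z + g2 z^2 + ..`. -/
theorem Loc.steps {Q f : ℤ[X]} {a : ℝ} (h : Loc Q f a) (hu : f.coeff 0 = 1) {p : ℝ}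
    (hp0 : 0 < p) (hp1 : p < 1) (hB : (aeval p Q : ℝ) + p * aeval p f ≤ 0) (hap : a ≤ p)
    {n g2 : ℤ} (hn : n = f.coeff 1 - Q.coeff 1) (hg2 : g2 = f.coeff 2 - Q.coeff 2 - n * Q.coeff 1)
    {Xi g1 : ℝ} (hXi : Xi = a⁻¹ - a) (hg1 : g1 = 1 - n / Xi) :
    ∃ r r1 : ℝ, |r| ≤ 1 ∧ -(p - a) / (p * (1 - a * p)) ≤ r ∧ r1 = (r + a) / (p * (1 + a * r)) ∧
      |r1| ≤ 1 ∧ |g1| ≤ 1 ∧ |r1 - g1| ≤ p * (1 - g1 * r1) ∧
      (|g1| < 1 → ∃ r2 g : ℝ, r2 = (r1 - g1) / (p * (1 - g1 * r1)) ∧ |r2| ≤ 1 ∧ |g| ≤ 1 ∧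
        (g2 : ℝ) = Xi * (n - (1 - g1 ^ 2) * (g - a)) ∧ |r2 - g| ≤ p * (1 - g * r2)) := by
  obtain ⟨s, hs, hsp, s0, s1, s2, hneg⟩ := h.sp
  have ha := h.a0
  have ha1 := h.a1
  have ha0 : a ≠ 0 := ha.ne'
  set F : ℝ[X] := f.map (Int.castRingHom ℝ) with hF
  set R : ℝ[X] := s * (1 - C a * X) with hR
  have hXi0 : 0 < Xi := by
    rw [hXi]
    have : 1 < a⁻¹ := (one_lt_inv₀ ha).mpr ha1
    linarith
  have f0 : F.coeff 0 = 1 := by rw [hF, coeff_map, hu]; simp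
  have f1 : F.coeff 1 = f.coeff 1 := by rw [hF, coeff_map]; rfl
  have f2 : F.coeff 2 = f.coeff 2 := by rw [hF, coeff_map]; rfl
  have hRX : R = s - C a * (X * s) := by rw [hR]; ring
  have r0 : R.coeff 0 = -a⁻¹ := by
    rw [hRX, coeff_sub, coeff_C_mul, coeff_X_mul_zero, mul_zero, sub_zero, s0]
  have r1c : R.coeff 1 = s.coeff 1 - a * s.coeff 0 := by
    rw [hRX, coeff_sub, coeff_C_mul, coeff_X_mul]
  have r2c : R.coeff 2 = s.coeff 2 - a * s.coeff 1 := by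
    rw [hRX, coeff_sub, coeff_C_mul, coeff_X_mul]
  -- step 0
  have hg0 : F.coeff 0 = -a * R.coeff 0 := by
    rw [f0, r0]; field_simp
  obtain ⟨F1, hF1⟩ := exists_quot F R hg0
  have hsp1 := hsp.step (g := -a) (by rw [abs_neg, abs_of_pos ha]; exact ha1) hF1
  set R1 : ℝ[X] := R - C (-a) * F with hR1
  have F10 : F1.coeff 0 = n - Xi := by
    have := congrArg (fun q => q.coeff 1) hF1
    simp only [coeff_X_mul, coeff_sub, coeff_C_mul] at this
    rw [this, f1, r1c, s1, s0, hn, hXi]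
    push_cast
    field_simp
    ring
  have F11 : F1.coeff 1 = g2 + (n - Xi) * Q.coeff 1 - a⁻¹ ^ 2 + 1 := by
    have := congrArg (fun q => q.coeff 2) hF1
    simp only [coeff_X_mul, coeff_sub, coeff_C_mul] at this
    rw [this, f2, r2c, s1, s2, hg2, hXi]
    push_cast
    field_simp
    ring
  have R10 : R1.coeff 0 = -Xi := by
    rw [hR1, coeff_sub, coeff_C_mul, r0, f0, hXi]; ring
  have R11 : R1.coeff 1 = -a⁻¹ ^ 2 - Xi * Q.coeff 1 + 1 + a * n := by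
    rw [hR1, coeff_sub, coeff_C_mul, r1c, s1, s0, f1, hXi, hn]
    push_cast
    field_simp
    ring
  have hx : |p| ≤ 1 := by rw [abs_of_pos hp0]; exact hp1.le
  have hRp := (hsp.ev hx).1
  set r := F.eval p / R.eval p with hr
  have hr1 := hsp.ratio hx
  have hrb : -(p - a) / (p * (1 - a * p)) ≤ r := by
    have e1 : R.eval p = s.eval p * (1 - a * p) := by rw [hR, eval_mul]; simp
    have e2 : (aeval p Q : ℝ) = (p - a) * s.eval p := by
      have h1 : (aeval p Q : ℝ) = (Q.map (Int.castRingHom ℝ)).eval p := by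
        rw [eval_map]; rfl
      rw [h1, hs, eval_mul]; simp
    have e3 : (aeval p f : ℝ) = F.eval p := by
      rw [hF, eval_map]; rfl
    have hsn := hneg p hp0.le hp1.le
    have h1ap : 0 < 1 - a * p := by nlinarith
    have hRn : R.eval p < 0 := by rw [e1]; exact mul_neg_of_neg_of_pos hsn h1ap
    rw [e2, e3] at hB
    rw [hr, div_le_iff₀ (mul_pos hp0 h1ap)]
    have h2 : F.eval p / R.eval p * (p * (1 - a * p)) * R.eval p =
        F.eval p * p * (1 - a * p) := by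
      field_simp
    by_contra hcon
    push Not at hcon
    have h3 := mul_lt_mul_of_neg_right hcon hRn
    rw [h2, e1] at h3
    nlinarith [mul_nonneg_of_nonpos_of_nonpos hB (by linarith : -(1 - a * p) ≤ 0)]
  have h1ar : 0 < 1 + a * r := by
    have := abs_le.mp hr1
    nlinarith
  have hR1p := (hsp1.ev hx).1
  have hval1 := SP.step_val hF1 hRp hp0.ne' (by rw [← hr]; intro h; nlinarith)
  have hratio1 := hsp1.ratio hx
  have hr1e : F1.eval p / R1.eval p = (r + a) / (p * (1 + a * r)) := by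
    rw [hR1, hval1, ← hr]
    congr 1 <;> ring
  have hg1e : F1.coeff 0 = g1 * R1.coeff 0 := by
    rw [F10, R10, hg1]
    field_simp
    ring
  have hg1le : |g1| ≤ 1 := by
    obtain ⟨h1, h2⟩ := hsp1.coeff_le
    rw [hg1e, abs_mul] at h2
    have := abs_pos.mpr h1
    by_contra hcon
    push Not at hcon
    nlinarith
  have hpick1 := hsp1.pick hg1e hp0.le hp1.le
  rw [hr1e] at hratio1 hpick1
  refine ⟨r, (r + a) / (p * (1 + a * r)), hr1, hrb, rfl, hratio1, hg1le, hpick1, fun hg1lt => ?_⟩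
  obtain ⟨F2, hF2⟩ := exists_quot F1 R1 hg1e
  have hsp2 := hsp1.step hg1lt hF2
  set R2 : ℝ[X] := R1 - C g1 * F1 with hR2
  have F20 : F2.coeff 0 = g2 - a⁻¹ * n + a * n * (n / Xi - 1) := by
    have := congrArg (fun q => q.coeff 1) hF2
    simp only [coeff_X_mul, coeff_sub, coeff_C_mul] at this
    rw [this, F11, R11, hg1]
    have h1 : a⁻¹ ^ 2 - 1 = a⁻¹ * Xi := by rw [hXi]; field_simp
    have h2 : a⁻¹ ^ 2 = a⁻¹ * Xi + 1 := by linarith
    rw [h2]
    field_simp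
    ring
  have R20 : R2.coeff 0 = -Xi * (1 - g1 ^ 2) := by
    rw [hR2, coeff_sub, coeff_C_mul, R10, hg1e, R10]
    ring
  have hpos : 0 < 1 - g1 ^ 2 := by
    have := abs_lt.mp hg1lt
    nlinarith
  have hR20 : R2.coeff 0 ≠ 0 := by
    rw [R20]
    exact mul_ne_zero (neg_ne_zero.mpr hXi0.ne') hpos.ne'
  set g := F2.coeff 0 / R2.coeff 0 with hg
  have hge : F2.coeff 0 = g * R2.coeff 0 := by rw [hg, div_mul_cancel₀ _ hR20]
  have hgle : |g| ≤ 1 := by
    obtain ⟨h1, h2⟩ := hsp2.coeff_le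
    rw [hg, abs_div, div_le_one (abs_pos.mpr h1)]
    exact h2
  have hval2 := SP.step_val hF2 hR1p hp0.ne' (by
    rw [hr1e]
    have h1 : |g1 * ((r + a) / (p * (1 + a * r)))| < 1 := by
      rw [abs_mul]
      calc |g1| * |(r + a) / (p * (1 + a * r))| ≤ |g1| * 1 :=
            mul_le_mul_of_nonneg_left hratio1 (abs_nonneg g1)
        _ < 1 := by rw [mul_one]; exact hg1lt
    have := (abs_lt.mp h1).2
    intro h2
    linarith)
  rw [hr1e] at hval2
  have hratio2 := hsp2.ratio hx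
  have hpick2 := hsp2.pick hge hp0.le hp1.le
  rw [hval2] at hratio2 hpick2
  refine ⟨_, g, rfl, hratio2, hgle, ?_, hpick2⟩
  rw [F20, R20] at hge
  have h3 : g * (-Xi * (1 - g1 ^ 2)) = -(Xi * ((1 - g1 ^ 2) * g)) := by ring
  rw [h3] at hge
  have h4 : (g2 : ℝ) = a⁻¹ * n - a * n * (n / Xi - 1) - Xi * ((1 - g1 ^ 2) * g) := by linarith
  rw [h4]
  have h5 : Xi * (1 - g1 ^ 2) = 2 * n - n ^ 2 / Xi := by
    rw [hg1]; field_simp; ring
  have h6 : Xi * (n - (1 - g1 ^ 2) * (g - a)) =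
      Xi * n + a * (Xi * (1 - g1 ^ 2)) - Xi * ((1 - g1 ^ 2) * g) := by ring
  rw [h6, h5]
  have h7 : Xi * n = a⁻¹ * n - a * n := by rw [hXi]; ring
  rw [h7]
  ring

end Pool.Agent.B5.Nr.Sch
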