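import Pool.Agent.Lib.MP_b5021c_nt.W.H80.Even

/-!
# MP_b5021c_nt, all `θ`: the window `j = 2`, `n = 2` (finding 3510 (2))
-/

namespace Pool.Agent.B5.Nr.Sch

open Polynomial

/-- Bounds for `g2` from the value at `1/2`. -/
theorem g2_bound {a r1 r2 g g1 g2 Xi : ℝ} (ha : 0 < a) (ha1 : a < 1 / 2)
    (hal : 1 - 2 * a - a ^ 2 < 0) (hXi : Xi = (1 - a ^ 2) / a)
    (hg1 : g1 = 1 - 2 / Xi) (hr1 : |r1| ≤ 1)
    (hB1 : 2 * (6 * a - 2 - a ^ 2) ≤ (2 - 3 * a + 4 * a ^ 2) * r1)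
    (hL1 : r1 - g1 ≤ 1 / 2 * (1 - g1 * r1))
    (hr2 : r2 = (r1 - g1) / (1 / 2 * (1 - g1 * r1)))
    (hpick : r2 - g ≤ 1 / 2 * (1 - g * r2))
    (hg2 : g2 = Xi * (2 - (1 - g1 ^ 2) * (g - a))) :
    g2 * (a * (1 - a ^ 2) * ((1 - 2 * a) * (2 - a))) ≤
      2 * (1 - a ^ 2) ^ 2 * ((1 - 2 * a) * (2 - a)) -
        4 * (1 - a) * (a * (1 - a ^ 2) * ((1 - 2 * a) * (2 - a))) +
        4 * a ^ 2 * (1 - a) * ((1 - 2 * a) * (2 - a)) +
        9 * (a * (1 - a ^ 2) * ((1 - 2 * a) * (2 - a))) -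
        6 * a ^ 2 * ((1 - 2 * a) * (2 - a)) - 2 * a ^ 2 * (2 - 3 * a + 4 * a ^ 2) := by
  have hbe : 0 < 1 - a ^ 2 := by nlinarith
  have hg1' : g1 = (1 - 2 * a - a ^ 2) / (1 - a ^ 2) := by
    rw [hg1, hXi]; field_simp; ring
  have hg1n : g1 < 0 := by rw [hg1']; exact div_neg_of_neg_of_pos hal hbe
  have hg1m : -1 < g1 := by rw [hg1', lt_div_iff₀ hbe]; nlinarith
  have hrl := abs_le.mp hr1
  have hr1lt : r1 < 1 := by
    by_contra hcon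
    push Not at hcon
    have h1 : r1 = 1 := le_antisymm hrl.2 hcon
    rw [h1] at hL1
    linarith
  have hd : 0 < 1 - g1 * r1 := by nlinarith
  have e1 : r2 * (1 / 2 * (1 - g1 * r1)) = r1 - g1 := by
    rw [hr2, div_mul_cancel₀ _ (mul_pos (by norm_num : (0 : ℝ) < 1 / 2) hd).ne']
  -- (star)
  have star : (1 - g) * ((1 + g1) * (1 - r1)) ≤ 3 * (1 / 2 + g1 - r1 * (1 + g1 / 2)) := by
    have h1 : (r2 - g) * (1 / 2 * (1 - g1 * r1)) ≤
        1 / 2 * (1 - g * r2) * (1 / 2 * (1 - g1 * r1)) :=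
      mul_le_mul_of_nonneg_right hpick (by positivity)
    have h2 : (r2 - g) * (1 / 2 * (1 - g1 * r1)) =
        r2 * (1 / 2 * (1 - g1 * r1)) - g * (1 / 2 * (1 - g1 * r1)) := by ring
    have h3 : 1 / 2 * (1 - g * r2) * (1 / 2 * (1 - g1 * r1)) =
        1 / 2 * (1 / 2 * (1 - g1 * r1)) - 1 / 2 * g * (r2 * (1 / 2 * (1 - g1 * r1))) := by ring
    rw [h2, h3, e1] at h1
    have h4 : (1 - g) * ((1 + g1) * (1 - r1)) - 3 * (1 / 2 + g1 - r1 * (1 + g1 / 2)) =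
        2 * (r1 - g1 - g * (1 / 2 * (1 - g1 * r1)) -
          (1 / 2 * (1 / 2 * (1 - g1 * r1)) - 1 / 2 * g * (r1 - g1))) := by ring
    linarith
  -- multiply by `(1 - 2a)(2 - a)`
  set W : ℝ := (1 - 2 * a) * (2 - a) with hW
  have hW0 : 0 < W := by rw [hW]; exact mul_pos (by linarith) (by linarith)
  have h1 : (1 - r1) * (2 - 3 * a + 4 * a ^ 2) ≤ 3 * W := by
    rw [hW]; linarith
  have h2 : 0 < 1 - r1 := by linarith
  have star2 : (1 - g) * (1 + g1) * W ≤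
      3 * (1 + g1 / 2) * W - (1 - g1) * (2 - 3 * a + 4 * a ^ 2) / 2 := by
    have h3 : (1 - r1) * ((1 - g) * (1 + g1) * W) ≤
        (1 - r1) * (3 * (1 + g1 / 2) * W - (1 - g1) * (2 - 3 * a + 4 * a ^ 2) / 2) := by
      have h4 : (1 - g) * ((1 + g1) * (1 - r1)) * W ≤
          3 * (1 / 2 + g1 - r1 * (1 + g1 / 2)) * W := mul_le_mul_of_nonneg_right star hW0.le
      have h5 : (1 - g1) / 2 * ((1 - r1) * (2 - 3 * a + 4 * a ^ 2)) ≤ (1 - g1) / 2 * (3 * W) :=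
        mul_le_mul_of_nonneg_left h1 (by linarith)
      have e : (1 - r1) * (3 * (1 + g1 / 2) * W - (1 - g1) * (2 - 3 * a + 4 * a ^ 2) / 2) -
          (1 - r1) * ((1 - g) * (1 + g1) * W) =
          (3 * (1 / 2 + g1 - r1 * (1 + g1 / 2)) * W - (1 - g) * ((1 + g1) * (1 - r1)) * W) +
          ((1 - g1) / 2 * (3 * W) - (1 - g1) / 2 * ((1 - r1) * (2 - 3 * a + 4 * a ^ 2))) := by
        ring
      linarith
    exact le_of_mul_le_mul_left h3 h2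
  -- the formula
  have hone : 1 - g1 ^ 2 = (1 - g1) * (1 + g1) := by ring
  have hx : Xi * (1 - g1) = 2 := by
    rw [hg1]
    have : Xi ≠ 0 := by rw [hXi]; exact (div_pos hbe ha).ne'
    field_simp; ring
  have e3 : g2 = 2 * Xi - 2 * (1 + g1) * (1 - a) + 2 * ((1 - g) * (1 + g1)) := by
    rw [hg2, hone]
    have : Xi * (2 - (1 - g1) * (1 + g1) * (g - a)) =
        2 * Xi - Xi * (1 - g1) * (1 + g1) * (g - a) := by ring
    rw [this, hx]; ring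
  have e4 : g2 * W ≤ (2 * Xi - 2 * (1 + g1) * (1 - a)) * W +
      2 * (3 * (1 + g1 / 2) * W - (1 - g1) * (2 - 3 * a + 4 * a ^ 2) / 2) := by
    rw [e3]; nlinarith
  have e5 := mul_le_mul_of_nonneg_left e4 (mul_pos ha hbe).le
  have e6 : a * (1 - a ^ 2) * (g2 * W) = g2 * (a * (1 - a ^ 2) * W) := by ring
  rw [e6] at e5
  refine e5.trans (le_of_eq ?_)
  rw [hg1', hXi]
  field_simp
  ring

/-- Powers of a small number. -/
theorem small_pow {t : ℝ} (h0 : 0 ≤ t) (h1 : t ≤ 1 / 200) (k : ℕ) :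
    0 ≤ t ^ (k + 2) ∧ t ^ (k + 2) ≤ t * (1 / 200) ^ (k + 1) := by
  refine ⟨by positivity, ?_⟩
  have e : t ^ (k + 2) = t * t ^ (k + 1) := by ring
  rw [e]
  exact mul_le_mul_of_nonneg_left (pow_le_pow_left₀ h0 h1 _) h0

theorem p18 {a : ℝ} (h0 : 41421 / 100000 < a) (h1 : a < 4192 / 10000) :
    0 < -(2 * a ^ 8 + a ^ 7 - 4 * a ^ 6 - 2 * a ^ 5 + a ^ 4 - 3 * a ^ 3 - 4 * a ^ 2 +
        7 * a - 2) := by
  obtain ⟨t, ht⟩ : ∃ t : ℝ, t = 4192 / 10000 - a := ⟨_, rfl⟩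
  have ht0 : 0 ≤ t := by rw [ht]; linarith
  have ht1 : t ≤ 1 / 200 := by rw [ht]; linarith
  have hat : a = 4192 / 10000 - t := by rw [ht]; ring
  rw [hat]
  obtain ⟨a2, b2⟩ := small_pow ht0 ht1 0
  obtain ⟨a3, b3⟩ := small_pow ht0 ht1 1
  obtain ⟨a4, b4⟩ := small_pow ht0 ht1 2
  obtain ⟨a5, b5⟩ := small_pow ht0 ht1 3
  obtain ⟨a6, b6⟩ := small_pow ht0 ht1 4
  obtain ⟨a7, b7⟩ := small_pow ht0 ht1 5
  obtain ⟨a8, b8⟩ := small_pow ht0 ht1 6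
  norm_num at a2 b2 a3 b3 a4 b4 a5 b5 a6 b6 a7 b7 a8 b8
  ring_nf
  linarith

theorem p19 {a : ℝ} (h0 : 41421 / 100000 < a) (h1 : a < 4192 / 10000) :
    0 < -(14 * a ^ 8 - 13 * a ^ 7 - 76 * a ^ 6 + 69 * a ^ 5 + 129 * a ^ 4 -
        120 * a ^ 3 - 60 * a ^ 2 + 69 * a - 14) := by
  obtain ⟨t, ht⟩ : ∃ t : ℝ, t = a - 41421 / 100000 := ⟨_, rfl⟩
  have ht0 : 0 ≤ t := by rw [ht]; linarith
  have ht1 : t ≤ 1 / 200 := by rw [ht]; linarith
  have hat : a = 41421 / 100000 + t := by rw [ht]; ring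
  rw [hat]
  obtain ⟨a2, b2⟩ := small_pow ht0 ht1 0
  obtain ⟨a3, b3⟩ := small_pow ht0 ht1 1
  obtain ⟨a4, b4⟩ := small_pow ht0 ht1 2
  obtain ⟨a5, b5⟩ := small_pow ht0 ht1 3
  obtain ⟨a6, b6⟩ := small_pow ht0 ht1 4
  obtain ⟨a7, b7⟩ := small_pow ht0 ht1 5
  obtain ⟨a8, b8⟩ := small_pow ht0 ht1 6
  norm_num at a2 b2 a3 b3 a4 b4 a5 b5 a6 b6 a7 b7 a8 b8
  ring_nf
  linarith

/-- The last three levels. -/
theorem even22_last {F1 R1 : ℝ[X]} {a : ℝ} {y w : ℤ} (halo : 41421 / 100000 < a)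
    (hahi : a < 4192 / 10000) (hal : 1 - 2 * a - a ^ 2 < 0)
    (h1' : SS 3 F1 R1 (p5 (1 - 2 * a - a ^ 2) (2 - 3 * a) (3 - y * a) (y - w * a) 0)
      (p5 (1 - a ^ 2) (-2 * a ^ 2) (a * (2 - 3 * a)) (a * (3 - y * a)) (a * (y - w * a)))) :
    False := by
  have ha : 0 < a := by linarith
  have hbe : 0 < 1 - a ^ 2 := by nlinarith
  have hkap : 0 < 1 - a - a ^ 2 := by nlinarith
  have hlt1 : |1 - 2 * a - a ^ 2| < |1 - a ^ 2| := by
    rw [abs_of_neg hal, abs_of_pos hbe]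
    nlinarith
  obtain ⟨t, ht⟩ : ∃ t : ℝ, t = a - 41421 / 100000 := ⟨_, rfl⟩
  have ht0 : 0 ≤ t := by rw [ht]; linarith
  have ht1 : t ≤ 1 / 200 := by rw [ht]; linarith
  have hat : a = 41421 / 100000 + t := by rw [ht]; ring
  obtain ⟨F2, R2, h2⟩ := h1'.step5 hlt1
  obtain ⟨A20, hA20⟩ : ∃ A20 : ℝ, A20 = 2 - 3 * a - a ^ 3 - 2 * a ^ 4 := ⟨_, rfl⟩
  obtain ⟨B20, hB20⟩ : ∃ B20 : ℝ, B20 = 4 * a * (1 - a - a ^ 2) := ⟨_, rfl⟩
  have h2' : SS 2 F2 R2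
      (p5 A20 ((1 - a ^ 2) * (3 - y * a) - (1 - 2 * a - a ^ 2) * (a * (2 - 3 * a)))
        ((1 - a ^ 2) * (y - w * a) - (1 - 2 * a - a ^ 2) * (a * (3 - y * a)))
        (-(1 - 2 * a - a ^ 2) * (a * (y - w * a))) 0)
      (p5 B20 ((1 - a ^ 2) * (-2 * a ^ 2) - (1 - 2 * a - a ^ 2) * (2 - 3 * a))
        ((1 - a ^ 2) * (a * (2 - 3 * a)) - (1 - 2 * a - a ^ 2) * (3 - y * a))
        ((1 - a ^ 2) * (a * (3 - y * a)) - (1 - 2 * a - a ^ 2) * (y - w * a))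
        ((1 - a ^ 2) * (a * (y - w * a)))) := by
    convert h2 using 2
    · rw [hA20]; ring
    · ring
    · rw [hB20]; ring
    · ring
  have hsq : a ^ 2 ≤ 1758 / 10000 := by nlinarith
  have ha4 : a ^ 4 ≤ 1758 / 10000 * a ^ 2 := by
    have e : a ^ 4 = a ^ 2 * a ^ 2 := by ring
    rw [e]
    exact mul_le_mul_of_nonneg_right hsq (sq_nonneg a)
  have ha3 : a ^ 3 ≤ 4192 / 10000 * a ^ 2 := by
    have e : a ^ 3 = a * a ^ 2 := by ring
    rw [e]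
    exact mul_le_mul_of_nonneg_right hahi.le (sq_nonneg a)
  have hB20p : 0 < B20 := by rw [hB20]; positivity
  have hA20p : 0 < A20 := by
    rw [hA20]
    nlinarith
  have hd2 : 0 < B20 - A20 := by
    have e : B20 - A20 = (1 - a) * (-2 * a ^ 3 + a ^ 2 + 5 * a - 2) := by
      rw [hB20, hA20]; ring
    rw [e]
    refine mul_pos (by linarith) ?_
    nlinarith
  have hlt2 : |A20| < |B20| := by
    rw [abs_of_pos hA20p, abs_of_pos hB20p]; linarith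
  obtain ⟨F3, R3, h3⟩ := h2'.step5 hlt2
  -- level 3
  obtain ⟨B30, hB30⟩ : ∃ B30 : ℝ, B30 = B20 * B20 - A20 * A20 := ⟨_, rfl⟩
  have hB30p : 0 < B30 := by
    have e : B30 = (B20 - A20) * (B20 + A20) := by rw [hB30]; ring
    rw [e]
    exact mul_pos hd2 (by linarith)
  have hc3 := h3.le5
  rw [← hB30, abs_of_pos hB30p] at hc3
  have hc3' := abs_le.mp hc3
  have hy8 : 8 ≤ y := by
    by_contra hcon
    push Not at hcon
    have hy7 : (y : ℝ) ≤ 7 := by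
      have : y ≤ 7 := by omega
      exact_mod_cast this
    have e : B20 * ((1 - a ^ 2) * (3 - y * a) - (1 - 2 * a - a ^ 2) * (a * (2 - 3 * a))) -
        A20 * ((1 - a ^ 2) * (-2 * a ^ 2) - (1 - 2 * a - a ^ 2) * (2 - 3 * a)) - B30 =
        (7 - y) * ((1 - a ^ 2) * a * B20) +
        (1 - a ^ 2) * (1 - a - a ^ 2) * (8 * a ^ 4 + 4 * a ^ 3 - 18 * a ^ 2 - 12 * a + 8) := by
      rw [hB30, hB20, hA20]; ring
    have h4 : 0 ≤ (7 - y) * ((1 - a ^ 2) * a * B20) :=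
      mul_nonneg (by linarith) (mul_pos (mul_pos hbe ha) hB20p).le
    have h5 : 0 < (1 - a ^ 2) * (1 - a - a ^ 2) *
        (8 * a ^ 4 + 4 * a ^ 3 - 18 * a ^ 2 - 12 * a + 8) := by
      refine mul_pos (mul_pos hbe hkap) ?_
      have h6 : 0 < a ^ 4 := by positivity
      have h7 : 0 < a ^ 3 := by positivity
      nlinarith
    linarith [hc3'.2]
  have hy8' : y ≤ 8 := by
    by_contra hcon
    push Not at hcon
    have hy9 : (9 : ℝ) ≤ y := by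
      have : 9 ≤ y := by omega
      exact_mod_cast this
    have e : B20 * ((1 - a ^ 2) * (3 - y * a) - (1 - 2 * a - a ^ 2) * (a * (2 - 3 * a))) -
        A20 * ((1 - a ^ 2) * (-2 * a ^ 2) - (1 - 2 * a - a ^ 2) * (2 - 3 * a)) + B30 =
        -((y - 9) * ((1 - a ^ 2) * a * B20)) -
        a * (1 - a ^ 2) * (4 * a ^ 4 - 8 * a ^ 3 - 10 * a ^ 2 + 16 * a - 4) := by
      rw [hB30, hB20, hA20]; ring
    have h4 : 0 ≤ (y - 9) * ((1 - a ^ 2) * a * B20) :=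
      mul_nonneg (by linarith) (mul_pos (mul_pos hbe ha) hB20p).le
    have h5 : 0 < a * (1 - a ^ 2) * (4 * a ^ 4 - 8 * a ^ 3 - 10 * a ^ 2 + 16 * a - 4) := by
      refine mul_pos (mul_pos ha hbe) ?_
      have h6 : 0 < a ^ 4 := by positivity
      nlinarith
    linarith [hc3'.1]
  have hy : y = 8 := le_antisymm hy8' hy8
  subst hy
  obtain ⟨A30, hA30⟩ : ∃ A30 : ℝ, A30 =
    B20 * ((1 - a ^ 2) * (3 - 8 * a) - (1 - 2 * a - a ^ 2) * (a * (2 - 3 * a))) -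
        A20 * ((1 - a ^ 2) * (-2 * a ^ 2) - (1 - 2 * a - a ^ 2) * (2 - 3 * a)) := ⟨_, rfl⟩
  push_cast at h3
  rw [← hA30, ← hB30] at h3
  have e31 : B30 - A30 = (1 - a ^ 2) * (1 - a - a ^ 2) *
      (-8 * a ^ 4 - 4 * a ^ 3 + 22 * a ^ 2 + 12 * a - 8) := by
    rw [hA30, hB30, hB20, hA20]; ring
  have e32 : B30 + A30 = a * (1 - a ^ 2) * (-4 * a ^ 4 + 4 * a ^ 3 + 6 * a ^ 2 - 12 * a + 4) := by
    rw [hA30, hB30, hB20, hA20]; ring
  have hp31 : 0 < B30 - A30 := by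
    rw [e31]
    refine mul_pos (mul_pos hbe hkap) ?_
    nlinarith
  have hp32 : 0 < B30 + A30 := by
    rw [e32]
    refine mul_pos (mul_pos ha hbe) ?_
    have h7 : 0 < a ^ 3 := by positivity
    nlinarith
  have hlt3 : |A30| < |B30| := by
    rw [abs_of_pos hB30p, abs_lt]
    constructor <;> linarith
  obtain ⟨F4, R4, h4⟩ := h3.step5 hlt3
  have hc4 := h4.le5
  obtain ⟨B40, hB40⟩ : ∃ B40 : ℝ, B40 = B30 * B30 - A30 * A30 := ⟨_, rfl⟩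
  have hB40p : 0 < B40 := by
    have e : B40 = (B30 - A30) * (B30 + A30) := by rw [hB40]; ring
    rw [e]
    exact mul_pos hp31 hp32
  rw [← hB40, abs_of_pos hB40p] at hc4
  have hc4' := abs_le.mp hc4
  have hco : 0 < B30 * (B20 * ((1 - a ^ 2) * a)) :=
    mul_pos hB30p (mul_pos hB20p (mul_pos hbe ha))
  have hfac : 0 < a * (1 - a) ^ 2 * (1 + a) ^ 2 * (1 - a - a ^ 2) := by
    have : 0 < 1 - a := by linarith
    positivity
  rcases le_or_gt w 18 with hw | hw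
  · have hw' : (w : ℝ) ≤ 18 := by exact_mod_cast hw
    have hP := p18 halo hahi
    have e : (B30 * (B20 * ((1 - a ^ 2) * (8 - w * a) - (1 - 2 * a - a ^ 2) * (a * (3 - 8 * a))) -
        A20 * ((1 - a ^ 2) * (a * (2 - 3 * a)) - (1 - 2 * a - a ^ 2) * (3 - 8 * a))) -
        A30 * (B20 * ((1 - a ^ 2) * (-2 * a ^ 2) - (1 - 2 * a - a ^ 2) * (2 - 3 * a)) -
        A20 * ((1 - a ^ 2) * (3 - 8 * a) - (1 - 2 * a - a ^ 2) * (a * (2 - 3 * a))))) - B40 =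
        (18 - w) * (B30 * (B20 * ((1 - a ^ 2) * a))) +
        a * (1 - a) ^ 2 * (1 + a) ^ 2 * (1 - a - a ^ 2) * (4 * -(2 * a ^ 8 + a ^ 7 - 4 * a ^ 6 -
          2 * a ^ 5 + a ^ 4 - 3 * a ^ 3 - 4 * a ^ 2 + 7 * a - 2)) := by
      rw [hB40, hA30, hB30, hB20, hA20]; ring
    have h5 : 0 ≤ (18 - w) * (B30 * (B20 * ((1 - a ^ 2) * a))) :=
      mul_nonneg (by linarith) hco.le
    have h6 := mul_pos hfac (by linarith : 0 < 4 * -(2 * a ^ 8 + a ^ 7 - 4 * a ^ 6 -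
          2 * a ^ 5 + a ^ 4 - 3 * a ^ 3 - 4 * a ^ 2 + 7 * a - 2))
    linarith [hc4'.2]
  · have hw' : (19 : ℝ) ≤ w := by
      have : 19 ≤ w := by omega
      exact_mod_cast this
    have hP := p19 halo hahi
    have e : (B30 * (B20 * ((1 - a ^ 2) * (8 - w * a) - (1 - 2 * a - a ^ 2) * (a * (3 - 8 * a))) -
        A20 * ((1 - a ^ 2) * (a * (2 - 3 * a)) - (1 - 2 * a - a ^ 2) * (3 - 8 * a))) -
        A30 * (B20 * ((1 - a ^ 2) * (-2 * a ^ 2) - (1 - 2 * a - a ^ 2) * (2 - 3 * a)) -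
        A20 * ((1 - a ^ 2) * (3 - 8 * a) - (1 - 2 * a - a ^ 2) * (a * (2 - 3 * a))))) + B40 =
        -((w - 19) * (B30 * (B20 * ((1 - a ^ 2) * a)))) -
        a * (1 - a) ^ 2 * (1 + a) ^ 2 * (1 - a - a ^ 2) * (4 * -(14 * a ^ 8 - 13 * a ^ 7 -
          76 * a ^ 6 + 69 * a ^ 5 + 129 * a ^ 4 - 120 * a ^ 3 - 60 * a ^ 2 + 69 * a - 14)) := by
      rw [hB40, hA30, hB30, hB20, hA20]; ring
    have h5 : 0 ≤ (w - 19) * (B30 * (B20 * ((1 - a ^ 2) * a))) :=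
      mul_nonneg (by linarith) hco.le
    have h6 := mul_pos hfac (by linarith : 0 < 4 * -(14 * a ^ 8 - 13 * a ^ 7 -
          76 * a ^ 6 + 69 * a ^ 5 + 129 * a ^ 4 - 120 * a ^ 3 - 60 * a ^ 2 + 69 * a - 14))
    linarith [hc4'.1]

theorem even22 {Q f : ℤ[X]} {a : ℝ} (h : Loc Q f a) (hu : f.coeff 0 = 1) (hap : a ≤ 1 / 2)
    (hal : 1 - 2 * a - a ^ 2 < 0) (hB : (aeval (1 / 2 : ℝ) Q : ℝ) + 1 / 2 * aeval (1 / 2 : ℝ) f ≤ 0)
    (hn2 : f.coeff 1 - Q.coeff 1 = 2) : False := by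
  have ha := h.a0
  have ha1 := h.a1
  have halo : 41421 / 100000 < a := by nlinarith
  have hbe : 0 < 1 - a ^ 2 := by nlinarith
  obtain ⟨n, x, y, w, F, R, hn, hx, h0⟩ := h.series hu
  have hn2' : n = 2 := by rw [hn, hn2]
  subst hn2'
  push_cast at h0
  -- level 1
  obtain ⟨F1, R1, h1⟩ := h0.step5 (by rw [abs_neg, abs_of_pos ha, abs_one]; exact ha1)
  have h1' : SS 3 F1 R1 (p5 (1 - 2 * a - a ^ 2) (2 - x * a) (x - y * a) (y - w * a) 0)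
      (p5 (1 - a ^ 2) (-2 * a ^ 2) (a * (2 - x * a)) (a * (x - y * a)) (a * (y - w * a))) := by
    convert h1 using 2 <;> ring
  have hlt1 : |1 - 2 * a - a ^ 2| < |1 - a ^ 2| := by
    rw [abs_of_neg hal, abs_of_pos hbe]
    nlinarith
  -- level 2
  obtain ⟨F2, R2, h2⟩ := h1'.step5 hlt1
  set A20 : ℝ := (1 - a ^ 2) * (2 - x * a) - (1 - 2 * a - a ^ 2) * (-2 * a ^ 2) with hA20
  set B20 : ℝ := (1 - a ^ 2) * (1 - a ^ 2) - (1 - 2 * a - a ^ 2) * (1 - 2 * a - a ^ 2) with hB20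
  have hB20' : B20 = 4 * a * (1 - a - a ^ 2) := by rw [hB20]; ring
  have hB20p : 0 < B20 := by
    rw [hB20']
    have : 0 < 1 - a - a ^ 2 := by nlinarith
    positivity
  have hc2 := h2.le5
  rw [abs_of_pos hB20p] at hc2
  -- `x ≥ 3`
  have hx3 : 3 ≤ x := by
    by_contra hcon
    push Not at hcon
    have hx2 : (x : ℝ) ≤ 2 := by
      have : x ≤ 2 := by omega
      exact_mod_cast this
    have h3 := (abs_le.mp hc2).2
    have e : A20 - B20 = (1 - a ^ 2) * a * (2 - x) + 2 * (1 - a) * (1 - 2 * a + a ^ 3) := by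
      rw [hA20, hB20]; ring
    have h4 : 0 ≤ (1 - a ^ 2) * a * (2 - x) :=
      mul_nonneg (mul_pos hbe ha).le (by linarith)
    have h5 : 0 < 2 * (1 - a) * (1 - 2 * a + a ^ 3) := by
      have : 0 < 1 - 2 * a + a ^ 3 := by
        have : 0 < a ^ 3 := by positivity
        linarith
      have h6 : 0 < 1 - a := by linarith
      positivity
    linarith
  -- the value at `1/2`
  obtain ⟨r, r1, hr, hrb, hr1, hr1le, hg1le, hpick, hnext⟩ := h.steps hu (p := 1 / 2)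
    (by norm_num) (by norm_num) hB hap (n := 2) (g2 := x) hn hx (Xi := a⁻¹ - a)
    (g1 := 1 - ((2 : ℤ) : ℝ) / (a⁻¹ - a)) rfl rfl
  have hXi : a⁻¹ - a = (1 - a ^ 2) / a := by field_simp
  have hB1 : 2 * (6 * a - 2 - a ^ 2) ≤ (2 - 3 * a + 4 * a ^ 2) * r1 := by
    have h3 := lowB (p := 1 / 2) (m := 1 / (2 * a)) (a := a) (by norm_num) (by norm_num)
      (by rw [le_div_iff₀ (by positivity)]; linarith) (by field_simp) hr hrb hr1
    have h4 := mul_le_mul_of_nonneg_left h3 (by positivity : 0 ≤ 16 * a ^ 2)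
    have e1 : 16 * a ^ 2 * (1 / (2 * a) * (1 + 1 / 2 - 1 / (2 * a)) - (1 / 2) ^ 3) =
        2 * (6 * a - 2 - a ^ 2) := by
      field_simp
      ring
    have e2 : 16 * a ^ 2 * (1 / 2 * ((1 / (2 * a)) ^ 2 - 1 / 2 * (1 / (2 * a)) -
        (1 / 2) ^ 2 * (1 / (2 * a)) + 1 / 2) * r1) = (2 - 3 * a + 4 * a ^ 2) * r1 := by
      field_simp
      ring
    rw [e1, e2] at h4
    exact h4
  have h2c : ((2 : ℤ) : ℝ) = 2 := by norm_num
  rw [h2c] at hpick hnext hg1le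
  set g1 : ℝ := 1 - 2 / (a⁻¹ - a) with hg1
  have hg1' : g1 = (1 - 2 * a - a ^ 2) / (1 - a ^ 2) := by
    rw [hg1, hXi]; field_simp; ring
  have hg1lt : |g1| < 1 := by
    rw [hg1', abs_div, div_lt_one (abs_pos.mpr hbe.ne')]
    exact hlt1
  have hpk := (abs_le.mp hpick).2
  obtain ⟨r2, g, hr2, hr2le, hg, hg2e, hpick2⟩ := hnext hg1lt
  have ha12 : a < 1 / 2 := by
    rcases lt_or_eq_of_le hap with h3 | h3
    · exact h3
    exfalso
    rw [h3] at hB1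
    norm_num at hB1
    have hrl := abs_le.mp hr1le
    have h4 : r1 = 1 := le_antisymm hrl.2 (by linarith)
    rw [h4] at hpk
    have h5 : g1 < 0 := by rw [hg1']; exact div_neg_of_neg_of_pos hal hbe
    linarith
  have hbd := g2_bound ha ha12 hal hXi rfl hr1le hB1 hpk hr2 (abs_le.mp hpick2).2 hg2e
  have hden : 0 < a * (1 - a ^ 2) * ((1 - 2 * a) * (2 - a)) :=
    mul_pos (mul_pos ha hbe) (mul_pos (by linarith) (by linarith))
  have hx4 : x ≤ 3 := by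
    by_contra hcon
    push Not at hcon
    have hx4 : (4 : ℝ) ≤ x := by
      have : 4 ≤ x := by omega
      exact_mod_cast this
    have h3 := mul_le_mul_of_nonneg_right hx4 hden.le
    have e : 4 * (a * (1 - a ^ 2) * ((1 - 2 * a) * (2 - a))) -
        (2 * (1 - a ^ 2) ^ 2 * ((1 - 2 * a) * (2 - a)) -
        4 * (1 - a) * (a * (1 - a ^ 2) * ((1 - 2 * a) * (2 - a))) +
        4 * a ^ 2 * (1 - a) * ((1 - 2 * a) * (2 - a)) +
        9 * (a * (1 - a ^ 2) * ((1 - 2 * a) * (2 - a))) -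
        6 * a ^ 2 * ((1 - 2 * a) * (2 - a)) - 2 * a ^ 2 * (2 - 3 * a + 4 * a ^ 2)) =
        (1 - a ^ 2) * (-4 * a ^ 4 + 5 * a ^ 2 + 8 * a - 4) := by ring
    have h4 : 0 < (1 - a ^ 2) * (-4 * a ^ 4 + 5 * a ^ 2 + 8 * a - 4) := by
      refine mul_pos hbe ?_
      have h5 : a ^ 4 ≤ a ^ 2 / 4 := by nlinarith [sq_nonneg a]
      nlinarith
    linarith
  have hx3' : x = 3 := le_antisymm hx4 hx3
  subst hx3'
  push_cast at hbd
  -- `a < .4192`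
  have hahi : a < 4192 / 10000 := by
    by_contra hcon
    push Not at hcon
    have e : 3 * (a * (1 - a ^ 2) * ((1 - 2 * a) * (2 - a))) -
        (2 * (1 - a ^ 2) ^ 2 * ((1 - 2 * a) * (2 - a)) -
        4 * (1 - a) * (a * (1 - a ^ 2) * ((1 - 2 * a) * (2 - a))) +
        4 * a ^ 2 * (1 - a) * ((1 - 2 * a) * (2 - a)) +
        9 * (a * (1 - a ^ 2) * ((1 - 2 * a) * (2 - a))) -
        6 * a ^ 2 * ((1 - 2 * a) * (2 - a)) - 2 * a ^ 2 * (2 - 3 * a + 4 * a ^ 2)) =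
        (1 - a ^ 2) * (2 * (5 * a ^ 2 + 3 * a - 2 - a ^ 3 - 2 * a ^ 4)) := by ring
    have h4 : 0 < (1 - a ^ 2) * (2 * (5 * a ^ 2 + 3 * a - 2 - a ^ 3 - 2 * a ^ 4)) := by
      refine mul_pos hbe ?_
      obtain ⟨t, ht⟩ : ∃ t : ℝ, t = a - 4192 / 10000 := ⟨_, rfl⟩
      have ht0 : 0 ≤ t := by rw [ht]; linarith
      have ht1 : t ≤ 1 / 10 := by rw [ht]; linarith
      have hat : a = 4192 / 10000 + t := by rw [ht]; ring
      rw [hat]
      have t2 : 0 ≤ t ^ 2 := sq_nonneg t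
      have t3 : t ^ 3 ≤ t ^ 2 := by nlinarith
      have t4 : t ^ 4 ≤ t ^ 2 := by nlinarith [sq_nonneg t]
      ring_nf
      nlinarith
    linarith
  push_cast at h1'
  exact even22_last halo hahi hal h1'

/-- **The window for even rank**: `n ≤ 1` for all `j ≥ 2`. -/
theorem even_win {Q f : ℤ[X]} {a p : ℝ} {j : ℕ} (h : Loc Q f a) (hu : f.coeff 0 = 1)
    (hj : 2 ≤ j) (hp : p = 1 / j) (hap : a ≤ p) (hXi : a⁻¹ - a < j)
    (hB : (aeval p Q : ℝ) + p * aeval p f ≤ 0) : f.coeff 1 - Q.coeff 1 ≤ 1 := by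
  rcases even_win' h hu hj hp hap hXi hB with h1 | ⟨h1, h2⟩
  · exact h1
  exfalso
  subst h1
  have hp2 : p = 1 / 2 := by rw [hp]; norm_num
  rw [hp2] at hap hB
  have ha := h.a0
  have hal : 1 - 2 * a - a ^ 2 < 0 := by
    push_cast at hXi
    have h3 := mul_lt_mul_of_pos_left hXi ha
    rw [mul_sub, mul_inv_cancel₀ ha.ne'] at h3
    nlinarith
  exact even22 h hu hap hal hB h2

end Pool.Agent.B5.Nr.Sch
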