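import Pool.Agent.Lib.MP_b5021c_nt.IfaceKE
import Pool.Agent.Lib.MP_b5021c_nt.W.H80.Even2

/-!
# Rows KE_WU, KE_WE: the windows for K even
-/

namespace Pool.Agent.B5.Nr.Sch

open Polynomial

/-- (KE_WU) -/
theorem ke_wu : WuS := by
  intro q f a j h hu hj hap hXi hB
  have ha := h.a0
  have hjR : (2 : ℝ) ≤ j := by exact_mod_cast hj
  have hj0 : (0 : ℝ) < j := by linarith
  have hp0 : (0 : ℝ) < 1 / j := by positivity
  have hp2 : (1 : ℝ) / j ≤ 1 / 2 := one_div_le_one_div_of_le (by norm_num) hjR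
  have hp1 : (1 : ℝ) / j < 1 := by linarith
  have hd : (1 : ℝ) / j - a ≤ a * (1 / j) * (1 - 1 / j) := by
    have h1 : (1 : ℝ) / j * j = 1 := by field_simp
    have h2 : a * (a⁻¹ - a) = 1 - a ^ 2 := by field_simp
    have h3 : a * (1 / j) * (a⁻¹ - a) < a * (1 / j) * j := by
      apply mul_lt_mul_of_pos_left hXi
      positivity
    have h4 : a * (1 / j) * (a⁻¹ - a) = (1 / j) * (1 - a ^ 2) := by rw [← h2]; ring
    have h5 : a * (1 / j) * j = a := by rw [mul_assoc, h1, mul_one]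
    rw [h4, h5] at h3
    have h6 : a ≤ 1 - 1 / j := by linarith
    have h7 : a * (1 / j) * a ≤ a * (1 / j) * (1 - 1 / j) := by
      apply mul_le_mul_of_nonneg_left h6
      positivity
    nlinarith
  have := u_win h hp0 hp1 hap hd hB
  omega

/-- (KE_WE) -/
theorem ke_we : WeS := by
  intro q f a j h hu hj hap hXi h1 hB
  have := even_win h hu hj rfl hap hXi hB
  omega

end Pool.Agent.B5.Nr.Sch
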