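import Pool.Agent.Lib.MP_b5021c_nt.W.H80.Win

/-!
# MP_b5021c_nt, all `θ`: the window for odd rank (finding 3510 (3))
-/

namespace Pool.Agent.B5.Nr.Sch

open Polynomial

theorem J_pos {p s : ℝ} (hp0 : 0 < p) (hp : p ≤ 5 / 12) (hs0 : 0 ≤ s) (hs : s ≤ p ^ 3)
    {q m K : ℝ} (hq : q = 1 + p - p ^ 2) (hm : m = q - s) (hK : K = p ^ 3 - m ^ 2 * s) :
    0 < (m - 1) * (m - p ^ 2) * (p ^ 2 * m * (m + p) - q * K) -
      q * m * ((1 + p) ^ 2 * K - 2 * p ^ 4 * m * (m + p)) := by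
  have e : (m - 1) * (m - p ^ 2) * (p ^ 2 * m * (m + p) - q * K) -
      q * m * ((1 + p) ^ 2 * K - 2 * p ^ 4 * m * (m + p)) =
      2 * p ^ 5 * q ^ 2 * (1 - p) * (1 + 2 * p - p ^ 2) +
      s * ((5 * p ^ 10 - 15 * p ^ 9 + p ^ 8 + 10 * p ^ 7 + 27 * p ^ 6 - 6 * p ^ 5 - 37 * p ^ 4
        - 8 * p ^ 3 + 13 * p ^ 2 + 7 * p + 1) +
        s * (2 * p ^ 8 + 8 * p ^ 7 - 23 * p ^ 6 - 32 * p ^ 5 + 55 * p ^ 4 + 38 * p ^ 3
          - 25 * p ^ 2 - 22 * p - 4) +
        s ^ 2 * (-4 * p ^ 6 + 22 * p ^ 5 - 10 * p ^ 4 - 40 * p ^ 3 + 10 * p ^ 2 + 24 * p + 6) +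
        s ^ 3 * (-4 * p ^ 4 + 10 * p ^ 3 + 3 * p ^ 2 - 10 * p - 4) +
        s ^ 4 * (-p ^ 2 + p + 1)) := by
    rw [hK, hm, hq]; ring
  rw [e]
  have hq0 : 0 < q := by rw [hq]; nlinarith
  have h1 : 0 < 2 * p ^ 5 * q ^ 2 * (1 - p) * (1 + 2 * p - p ^ 2) := by
    have : 0 < 1 - p := by linarith
    have : 0 < 1 + 2 * p - p ^ 2 := by nlinarith
    positivity
  have hp1 : p ≤ 1 := by linarith
  have hs1 : s ≤ 1 / 13 := by
    have : p ^ 3 ≤ (5 / 12) ^ 3 := pow_le_pow_left₀ hp0.le hp 3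
    linarith [show ((5 : ℝ) / 12) ^ 3 ≤ 1 / 13 by norm_num]
  have p2 : p ^ 2 ≤ 25 / 144 := by nlinarith
  have p3 : 0 ≤ p ^ 3 := by positivity
  have p3' : p ^ 3 ≤ 5 / 12 * p ^ 2 := by nlinarith [sq_nonneg p]
  have p4' : p ^ 4 ≤ 25 / 144 * p ^ 2 := by nlinarith [sq_nonneg p]
  have p5' : p ^ 5 ≤ 1 / 13 * p ^ 2 := by
    have : p ^ 5 = p ^ 3 * p ^ 2 := by ring
    rw [this]
    have h3 : p ^ 3 ≤ 1 / 13 := by
      have : p ^ 3 ≤ (5 / 12) ^ 3 := pow_le_pow_left₀ hp0.le hp 3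
      linarith [show ((5 : ℝ) / 12) ^ 3 ≤ 1 / 13 by norm_num]
    exact mul_le_mul_of_nonneg_right h3 (sq_nonneg p)
  have A1 : 1 + 7 * p ≤ 5 * p ^ 10 - 15 * p ^ 9 + p ^ 8 + 10 * p ^ 7 + 27 * p ^ 6 - 6 * p ^ 5
      - 37 * p ^ 4 - 8 * p ^ 3 + 13 * p ^ 2 + 7 * p + 1 := by
    have h9 : p ^ 9 ≤ p ^ 6 := pow_le_pow_of_le_one hp0.le hp1 (by norm_num)
    have h10 : 0 ≤ p ^ 10 := by positivity
    have h8 : 0 ≤ p ^ 8 := by positivity
    have h7 : 0 ≤ p ^ 7 := by positivity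
    have h6 : 0 ≤ p ^ 6 := by positivity
    have h2 : 0 ≤ p ^ 2 := by positivity
    linarith
  have A2 : -(4 + 22 * p + 25 * p ^ 2) ≤ 2 * p ^ 8 + 8 * p ^ 7 - 23 * p ^ 6 - 32 * p ^ 5
      + 55 * p ^ 4 + 38 * p ^ 3 - 25 * p ^ 2 - 22 * p - 4 := by
    have h6 : p ^ 6 ≤ p ^ 4 := pow_le_pow_of_le_one hp0.le hp1 (by norm_num)
    have h5 : p ^ 5 ≤ p ^ 4 := pow_le_pow_of_le_one hp0.le hp1 (by norm_num)
    have h8 : 0 ≤ p ^ 8 := by positivity
    have h7 : 0 ≤ p ^ 7 := by positivity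
    linarith
  have A3 : 0 ≤ -4 * p ^ 6 + 22 * p ^ 5 - 10 * p ^ 4 - 40 * p ^ 3 + 10 * p ^ 2 + 24 * p + 6 := by
    have h6 : p ^ 6 ≤ p ^ 5 := pow_le_pow_of_le_one hp0.le hp1 (by norm_num)
    have h5 : 0 ≤ p ^ 5 := by positivity
    have hpp : p ^ 2 ≤ 5 / 12 * p := by nlinarith
    linarith
  have A4 : -10 ≤ -4 * p ^ 4 + 10 * p ^ 3 + 3 * p ^ 2 - 10 * p - 4 := by
    have h2 : 0 ≤ p ^ 2 := by positivity
    linarith
  have A5 : 0 ≤ -p ^ 2 + p + 1 := by nlinarith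
  have h2 : 0 ≤ (5 * p ^ 10 - 15 * p ^ 9 + p ^ 8 + 10 * p ^ 7 + 27 * p ^ 6 - 6 * p ^ 5 - 37 * p ^ 4
        - 8 * p ^ 3 + 13 * p ^ 2 + 7 * p + 1) +
        s * (2 * p ^ 8 + 8 * p ^ 7 - 23 * p ^ 6 - 32 * p ^ 5 + 55 * p ^ 4 + 38 * p ^ 3
          - 25 * p ^ 2 - 22 * p - 4) +
        s ^ 2 * (-4 * p ^ 6 + 22 * p ^ 5 - 10 * p ^ 4 - 40 * p ^ 3 + 10 * p ^ 2 + 24 * p + 6) +
        s ^ 3 * (-4 * p ^ 4 + 10 * p ^ 3 + 3 * p ^ 2 - 10 * p - 4) +
        s ^ 4 * (-p ^ 2 + p + 1) := by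
    have B2 := mul_le_mul_of_nonneg_left A2 hs0
    have B3 := mul_nonneg (sq_nonneg s) A3
    have B4 := mul_le_mul_of_nonneg_left A4 (by positivity : 0 ≤ s ^ 3)
    have B5 := mul_nonneg (by positivity : 0 ≤ s ^ 4) A5
    have C2 : s * (4 + 22 * p + 25 * p ^ 2) ≤ 1 / 13 * (4 + 22 * p + 25 * p ^ 2) :=
      mul_le_mul_of_nonneg_right hs1 (by positivity)
    have C4 : s ^ 3 ≤ (1 / 13) ^ 3 := pow_le_pow_left₀ hs0 hs1 3
    have C5 : s ^ 3 ≤ 1 / 100 := C4.trans (by norm_num)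
    linarith
  have h3 := mul_nonneg hs0 h2
  linarith

/-- The lower bound for `r1`. -/
theorem odd0 {p m s q M a r r1 : ℝ} (hp0 : 0 < p) (hp : p ≤ 5 / 12) (hm1 : 1 ≤ m)
    (hq : q = 1 + p - p ^ 2) (hs : s = q - m)
    (hM : M = m ^ 2 - p ^ 2) (ha : a = p / m) (hr : |r| ≤ 1)
    (hrb : -(p - a) / (p * (1 - a * p)) ≤ r) (hr1 : r1 = (r + a) / (p * (1 + a * r))) :
    m * (p ^ 2 + s) - p ^ 3 ≤ p * (m ^ 2 - p * m - p ^ 2 * m + p) * r1 := by
  have hm0 : 0 < m := by linarith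
  have hmp : p ^ 2 < 1 := by nlinarith
  have hrl := abs_le.mp hr
  have hMpos : 0 < M := by rw [hM]; nlinarith
  have h1 : 0 < m + p * r := by nlinarith
  have h2 : 0 < 1 + a * r := by
    have : 1 + a * r = (m + p * r) / m := by rw [ha]; field_simp
    rw [this]; exact div_pos h1 hm0
  have h3 : r1 * (p * (m + p * r)) = m * r + p := by
    rw [hr1, ha]
    have h4 : 1 + p / m * r ≠ 0 := by rw [← ha]; exact h2.ne'
    have h4' : m + r * p ≠ 0 := by rw [mul_comm r p]; exact h1.ne'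
    field_simp
  have h5 : 0 ≤ (m - p ^ 2) * r + (m - 1) := by
    have h6 : 0 < m - p ^ 2 := by linarith
    have h7 : -(p - a) / (p * (1 - a * p)) = -(m - 1) / (m - p ^ 2) := by
      rw [ha]
      have h8 : 1 - p / m * p ≠ 0 := by
        have : 1 - p / m * p = (m - p ^ 2) / m := by field_simp
        rw [this]; exact (div_pos h6 hm0).ne'
      rw [div_eq_div_iff (mul_ne_zero hp0.ne' h8) h6.ne']
      field_simp
    rw [h7, div_le_iff₀ h6] at hrb
    linarith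
  have h6 : (p * (m ^ 2 - p * m - p ^ 2 * m + p) * r1 - (m * (p ^ 2 + s) - p ^ 3)) * (m + p * r) =
      M * ((m - p ^ 2) * r + (m - 1)) := by
    have : (p * (m ^ 2 - p * m - p ^ 2 * m + p) * r1 - (m * (p ^ 2 + s) - p ^ 3)) * (m + p * r) =
      (m ^ 2 - p * m - p ^ 2 * m + p) * (r1 * (p * (m + p * r))) -
        (m * (p ^ 2 + s) - p ^ 3) * (m + p * r) := by ring
    rw [this, h3, hs, hM, hq]
    ring
  have h7 : 0 ≤ p * (m ^ 2 - p * m - p ^ 2 * m + p) * r1 - (m * (p ^ 2 + s) - p ^ 3) := by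
    by_contra hcon
    push Not at hcon
    have := mul_neg_of_neg_of_pos hcon h1
    rw [h6] at this
    exact absurd (mul_nonneg hMpos.le h5) (not_le.mpr this)
  linarith

/-- First level: `n = j + 1` forces `Z ≥ 0`. -/
theorem odd1 {p m s q K M T r1 : ℝ} (hp0 : 0 < p) (hp : p ≤ 5 / 12) (hm1 : 1 ≤ m)
    (hq : q = 1 + p - p ^ 2) (hs : s = q - m) (hs0 : 0 ≤ s) (hK : K = p ^ 3 - m ^ 2 * s)
    (hM : M = m ^ 2 - p ^ 2) (hT : T = s * m + p ^ 2)
    (hB1 : m * (p ^ 2 + s) - p ^ 3 ≤ p * (m ^ 2 - p * m - p ^ 2 * m + p) * r1)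
    (hle : r1 + T / M ≤ p * (1 + T / M * r1)) :
    r1 * (M - p * T) ≤ p * M - T ∧ 0 ≤ (1 + p) ^ 2 * K - 2 * p ^ 4 * m * (m + p) := by
  have hm0 : 0 < m := by linarith
  have hmp : p ^ 2 < 1 := by nlinarith
  have hMpos : 0 < M := by rw [hM]; nlinarith
  have h8 : r1 * (M - p * T) ≤ p * M - T := by
    have h9 : (r1 + T / M) * M ≤ p * (1 + T / M * r1) * M :=
      mul_le_mul_of_nonneg_right hle hMpos.le
    have e1 : (r1 + T / M) * M = r1 * M + T := by field_simp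
    have e2 : p * (1 + T / M * r1) * M = p * (M + T * r1) := by field_simp
    rw [e1, e2] at h9
    linarith
  refine ⟨h8, ?_⟩
  have hD : 0 < m ^ 2 - p * m - p ^ 2 * m + p := by nlinarith
  have hqm : s ≤ p - p ^ 2 := by rw [hs, hq]; linarith
  have h9 : 0 < M - p * T := by
    rw [hM, hT]
    nlinarith [mul_pos hp0 hm0]
  have h10 : (m * (p ^ 2 + s) - p ^ 3) * (M - p * T) ≤
      p * (m ^ 2 - p * m - p ^ 2 * m + p) * (p * M - T) := by
    calc (m * (p ^ 2 + s) - p ^ 3) * (M - p * T) ≤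
        (p * (m ^ 2 - p * m - p ^ 2 * m + p) * r1) * (M - p * T) :=
          mul_le_mul_of_nonneg_right hB1 h9.le
      _ = p * (m ^ 2 - p * m - p ^ 2 * m + p) * (r1 * (M - p * T)) := by ring
      _ ≤ _ := mul_le_mul_of_nonneg_left h8 (mul_pos hp0 hD).le
  have h11 : p * (m ^ 2 - p * m - p ^ 2 * m + p) * (p * M - T) -
      (m * (p ^ 2 + s) - p ^ 3) * (M - p * T) =
      (m - p) * ((1 + p) ^ 2 * K - 2 * p ^ 4 * m * (m + p)) := by
    rw [hK, hM, hT, hs, hq]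
    ring
  have h12 : 0 < m - p := by linarith
  by_contra hcon
  push Not at hcon
  have := mul_neg_of_pos_of_neg h12 hcon
  linarith

/-- Second level: the range of `g2`. -/
theorem odd2 {p m s q K M T a r1 r2 g g1 g2 Xi j : ℝ} (hp0 : 0 < p) (hp : p ≤ 5 / 12)
    (hm1 : 1 ≤ m) (hq : q = 1 + p - p ^ 2) (hs : s = q - m) (hs0 : 0 ≤ s)
    (hK : K = p ^ 3 - m ^ 2 * s) (hM : M = m ^ 2 - p ^ 2) (hT : T = s * m + p ^ 2)
    (ha : a = p / m) (hr1 : |r1| ≤ 1)
    (hB1 : m * (p ^ 2 + s) - p ^ 3 ≤ p * (m ^ 2 - p * m - p ^ 2 * m + p) * r1)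
    (hL1 : r1 * (M - p * T) ≤ p * M - T)
    (hZ : 0 ≤ (1 + p) ^ 2 * K - 2 * p ^ 4 * m * (m + p))
    (hg1 : g1 = -(T / M)) (hr2 : r2 = (r1 - g1) / (p * (1 - g1 * r1))) (hg : |g| ≤ 1)
    (hpick : r2 - g ≤ p * (1 - g * r2)) (hXi : Xi = M / (p * m)) (hj : j = (1 - p ^ 2) / p)
    (hg2 : g2 = Xi * (q / p - (1 - g1 ^ 2) * (g - a))) :
    j * (j + 1) < g2 ∧ g2 < j * (j + 1) + 1 := by
  have hm0 : 0 < m := by linarith
  have hMpos : 0 < M := by rw [hM]; nlinarith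
  have hq0 : 0 < q := by rw [hq]; nlinarith
  have hgl := abs_le.mp hg
  have hrl := abs_le.mp hr1
  have hK0 : 0 < K := by
    have h1 : 0 < 2 * p ^ 4 * m * (m + p) := by positivity
    have h2 : 0 < (1 + p) ^ 2 * K := by linarith
    exact (pos_iff_pos_of_mul_pos h2).mp (by positivity)
  have hsp : s ≤ p ^ 3 := by
    have h1 : m ^ 2 * s < p ^ 3 := by linarith
    have h2 : s ≤ m ^ 2 * s := le_mul_of_one_le_left hs0 (one_le_pow₀ hm1)
    linarith
  have hp3 : p ^ 3 ≤ 1 / 13 := by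
    have : p ^ 3 ≤ (5 / 12) ^ 3 := pow_le_pow_left₀ hp0.le hp 3
    linarith [show ((5 : ℝ) / 12) ^ 3 ≤ 1 / 13 by norm_num]
  have hm1' : 0 < m - 1 := by
    have h1 : m = 1 + p - p ^ 2 - s := by rw [hs, hq]; ring
    have h2 : p ^ 3 ≤ 5 / 12 * p ^ 2 := by nlinarith [sq_nonneg p]
    have h3 : p ^ 2 ≤ 5 / 12 * p := by nlinarith
    have h4 : m - 1 = p - p ^ 2 - s := by rw [h1]; ring
    rw [h4]
    nlinarith
  have hmp2 : 0 < m - p ^ 2 := by nlinarith
  have hT0 : 0 < T := by rw [hT]; positivity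
  have hTM : T < M := by
    rw [hT, hM]
    have : s * m ≤ 1 / 13 * m := mul_le_mul_of_nonneg_right (hsp.trans hp3) hm0.le
    nlinarith
  have hMT : M + T = m * q := by rw [hM, hT, hs]; ring
  -- (*)
  have hr1lt : r1 < 1 := by
    by_contra hcon
    push Not at hcon
    have h1 : r1 = 1 := le_antisymm hrl.2 hcon
    rw [h1] at hL1
    nlinarith
  have hd : 0 < M + T * r1 := by nlinarith
  have e1 : r2 * (p * (M + T * r1)) = r1 * M + T := by
    rw [hr2, hg1]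
    have h1 : r1 - -(T / M) = (r1 * M + T) / M := by field_simp; ring
    have h2 : 1 - -(T / M) * r1 = (M + T * r1) / M := by field_simp; ring
    rw [h1, h2]
    have hd' : M + r1 * T ≠ 0 := by rw [mul_comm r1 T]; exact hd.ne'
    field_simp
  have star : (1 - g) * ((M - T) * (1 - r1) * p) ≤
      (1 + p) * (p * M - T - r1 * (M - p * T)) := by
    have h1 : (r2 - g) * (p * (M + T * r1)) ≤ p * (1 - g * r2) * (p * (M + T * r1)) :=
      mul_le_mul_of_nonneg_right hpick (by positivity)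
    have h2 : (r2 - g) * (p * (M + T * r1)) = r2 * (p * (M + T * r1)) - g * (p * (M + T * r1)) := by
      ring
    have h3 : p * (1 - g * r2) * (p * (M + T * r1)) =
        p * (p * (M + T * r1)) - p * g * (r2 * (p * (M + T * r1))) := by ring
    rw [h2, h3, e1] at h1
    have h4 : (1 - g) * ((M - T) * (1 - r1) * p) - (1 + p) * (p * M - T - r1 * (M - p * T)) =
        r1 * M + T - g * (p * (M + T * r1)) -
          (p * (p * (M + T * r1)) - p * g * (r1 * M + T)) := by ring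
    linarith
  -- use `r1 ≥ B₁`
  have hDN : p * (m ^ 2 - p * m - p ^ 2 * m + p) - (m * (p ^ 2 + s) - p ^ 3) =
      (1 + p) * ((m - 1) * (m - p ^ 2)) := by rw [hs, hq]; ring
  have star2 : (1 - g) * ((M - T) * p * ((m - 1) * (m - p ^ 2))) ≤
      (m - p) * ((1 + p) ^ 2 * K - 2 * p ^ 4 * m * (m + p)) := by
    set D : ℝ := m ^ 2 - p * m - p ^ 2 * m + p with hD
    set N : ℝ := m * (p ^ 2 + s) - p ^ 3 with hN
    have hD0 : 0 < D := by rw [hD]; nlinarith
    have hid : p * D * (p * M - T) - N * (M - p * T) =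
      (m - p) * ((1 + p) ^ 2 * K - 2 * p ^ 4 * m * (m + p)) := by
      rw [hD, hN, hK, hM, hT, hs, hq]; ring
    -- `(1 - r1) p D ≤ p D - N`
    have h1 : (1 - r1) * (p * D) ≤ p * D - N := by linarith
    -- `(1 - g)(M - T) p ≤ (1 + p) [(M - pT) - (1-p)(M+T)/(1 - r1)]`
    have h2 : 0 < 1 - r1 := by linarith
    have h3 : (1 - g) * ((M - T) * p) * (p * D - N) ≤
        (1 + p) * ((M - p * T) * (p * D - N) - (1 - p) * (M + T) * (p * D)) := by
      have h4 : (1 - g) * ((M - T) * p) * (1 - r1) ≤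
          (1 + p) * ((M - p * T) * (1 - r1) - (1 - p) * (M + T)) := by
        have e2 : (1 - g) * ((M - T) * p) * (1 - r1) = (1 - g) * ((M - T) * (1 - r1) * p) := by
          ring
        have e3 : (1 + p) * ((M - p * T) * (1 - r1) - (1 - p) * (M + T)) =
            (1 + p) * (p * M - T - r1 * (M - p * T)) := by ring
        rw [e2, e3]
        exact star
      have h5 : 0 < p * D - N := by rw [hDN]; positivity
      have h6 : (1 - g) * ((M - T) * p) * (1 - r1) * (p * D - N) ≤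
          (1 + p) * ((M - p * T) * (1 - r1) - (1 - p) * (M + T)) * (p * D - N) :=
        mul_le_mul_of_nonneg_right h4 h5.le
      have h7 : (1 - r1) * ((1 - g) * ((M - T) * p) * (p * D - N)) ≤
          (1 - r1) * ((1 + p) * ((M - p * T) * (p * D - N) - (1 - p) * (M + T) * (p * D))) := by
        have h8 : (1 - p) * (M + T) * ((1 - r1) * (p * D)) ≤ (1 - p) * (M + T) * (p * D - N) :=
          mul_le_mul_of_nonneg_left h1 (mul_nonneg (by linarith) (by linarith))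
        have h9 : (1 + p) * ((1 - p) * (M + T) * ((1 - r1) * (p * D))) ≤
            (1 + p) * ((1 - p) * (M + T) * (p * D - N)) :=
          mul_le_mul_of_nonneg_left h8 (by linarith)
        have e2 : (1 - r1) * ((1 - g) * ((M - T) * p) * (p * D - N)) =
            (1 - g) * ((M - T) * p) * (1 - r1) * (p * D - N) := by ring
        have e3 : (1 - r1) * ((1 + p) * ((M - p * T) * (p * D - N) -
            (1 - p) * (M + T) * (p * D))) =
            (1 + p) * ((M - p * T) * (1 - r1) - (1 - p) * (M + T)) * (p * D - N) +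
            ((1 + p) * ((1 - p) * (M + T) * (p * D - N)) -
              (1 + p) * ((1 - p) * (M + T) * ((1 - r1) * (p * D)))) := by ring
        rw [e2, e3]
        linarith
      exact le_of_mul_le_mul_left h7 h2
    have h10 : (1 + p) * ((M - p * T) * (p * D - N) - (1 - p) * (M + T) * (p * D)) =
        (1 + p) * (p * D * (p * M - T) - N * (M - p * T)) := by ring
    rw [h10, hid, hDN] at h3
    have h11 : (1 + p) * ((1 - g) * ((M - T) * p * ((m - 1) * (m - p ^ 2)))) ≤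
        (1 + p) * ((m - p) * ((1 + p) ^ 2 * K - 2 * p ^ 4 * m * (m + p))) := by
      calc (1 + p) * ((1 - g) * ((M - T) * p * ((m - 1) * (m - p ^ 2)))) =
          (1 - g) * ((M - T) * p) * ((1 + p) * ((m - 1) * (m - p ^ 2))) := by ring
        _ ≤ _ := h3
    exact le_of_mul_le_mul_left h11 (by linarith)
  -- the formula for `g2`
  have hfor : g2 - j * (j + 1) = q * (K / (p ^ 2 * m * (m + p)) + (M - T) * (1 - g) / (p * M)) := by
    have h1 : 1 - g1 ^ 2 = (M - T) * (m * q) / M ^ 2 := by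
      rw [← hMT, hg1]; field_simp; ring
    have h2 : g2 = q * (M / (p ^ 2 * m) - (M - T) * (g - a) / (p * M)) := by
      rw [hg2, h1, hXi]; field_simp
    have hM' : M = (m - p) * (m + p) := by rw [hM]; ring
    have h3 : j * (j + 1) = q * ((1 - p ^ 2) / p ^ 2) := by
      rw [hj, hq]; field_simp; ring
    have hmp : 0 < m + p := by linarith
    have hmp' : 0 < m - p := by linarith
    have h4 : M / (p ^ 2 * m) - (M - T) * (g - a) / (p * M) - (1 - p ^ 2) / p ^ 2 =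
        K / (p ^ 2 * m * (m + p)) + (M - T) * (1 - g) / (p * M) := by
      have h5 : K = (M - m + m * p ^ 2) * (m + p) - p * (M - T) := by
        rw [hK, hM, hT, hs, hq]; ring
      rw [h5, ha, hM']
      field_simp
      ring
    rw [h2, h3, ← h4]
    ring
  have hmp : 0 < m + p := by linarith
  have hmp' : 0 < m - p := by linarith
  constructor
  · have h1 : 0 < q * (K / (p ^ 2 * m * (m + p)) + (M - T) * (1 - g) / (p * M)) := by
      refine mul_pos hq0 (add_pos_of_pos_of_nonneg (by positivity) ?_)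
      exact div_nonneg (mul_nonneg (by linarith) (by linarith)) (by positivity)
    linarith
  · have hJ := J_pos hp0 hp hs0 hsp hq (by linarith : m = q - s) hK
    set Z := (1 + p) ^ 2 * K - 2 * p ^ 4 * m * (m + p) with hZd
    have h1 : (M - T) * (1 - g) / (p * M) ≤ Z / (p ^ 2 * (m + p) * ((m - 1) * (m - p ^ 2))) := by
      rw [div_le_div_iff₀ (by positivity) (by positivity)]
      have h2 : M = (m - p) * (m + p) := by rw [hM]; ring
      calc (M - T) * (1 - g) * (p ^ 2 * (m + p) * ((m - 1) * (m - p ^ 2)))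
          = (p * (m + p)) * ((1 - g) * ((M - T) * p * ((m - 1) * (m - p ^ 2)))) := by ring
        _ ≤ (p * (m + p)) * ((m - p) * Z) := mul_le_mul_of_nonneg_left star2 (by positivity)
        _ = Z * (p * M) := by rw [h2]; ring
    have h3 : q * (K / (p ^ 2 * m * (m + p)) + Z / (p ^ 2 * (m + p) * ((m - 1) * (m - p ^ 2)))) <
        1 := by
      have h4 : K / (p ^ 2 * m * (m + p)) + Z / (p ^ 2 * (m + p) * ((m - 1) * (m - p ^ 2))) =
          (K * ((m - 1) * (m - p ^ 2)) + m * Z) /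
            (p ^ 2 * m * (m + p) * ((m - 1) * (m - p ^ 2))) := by
        field_simp
      rw [h4, ← mul_div_assoc, div_lt_one (by positivity)]
      have e2 : p ^ 2 * m * (m + p) * ((m - 1) * (m - p ^ 2)) -
          q * (K * ((m - 1) * (m - p ^ 2)) + m * Z) =
          (m - 1) * (m - p ^ 2) * (p ^ 2 * m * (m + p) - q * K) - q * m * Z := by ring
      linarith
    have h5 : q * ((M - T) * (1 - g) / (p * M)) ≤
        q * (Z / (p ^ 2 * (m + p) * ((m - 1) * (m - p ^ 2)))) :=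
      mul_le_mul_of_nonneg_left h1 hq0.le
    have h6 : g2 - j * (j + 1) < 1 := by
      rw [hfor, mul_add]
      rw [mul_add] at h3
      linarith
    linarith

/-- **The window for odd rank.** -/
theorem odd_win {Q f : ℤ[X]} {a p : ℝ} {j : ℕ} (h : Loc Q f a) (hu : f.coeff 0 = 1)
    (hj : 2 ≤ j) (hp0 : 0 < p) (hp : p ^ 2 + j * p = 1) (hap : a ≤ p) (hth : 1 ≤ a * (j + 1))
    (hB : (aeval p Q : ℝ) + p * aeval p f ≤ 0) : f.coeff 1 - Q.coeff 1 ≤ j := by
  by_contra hcon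
  push Not at hcon
  have ha := h.a0
  have hjR : (2 : ℝ) ≤ j := by exact_mod_cast hj
  have hp5 : p ≤ 5 / 12 := by
    by_contra h5
    push Not at h5
    nlinarith
  have hp1 : p < 1 := by linarith
  obtain ⟨r, r1, hr, hrb, hr1, hr1le, hg1le, hpick, hnext⟩ := h.steps hu hp0 hp1 hB hap
    (n := f.coeff 1 - Q.coeff 1)
    (g2 := f.coeff 2 - Q.coeff 2 - (f.coeff 1 - Q.coeff 1) * Q.coeff 1) rfl rfl
    (Xi := a⁻¹ - a) (g1 := 1 - ((f.coeff 1 - Q.coeff 1 : ℤ) : ℝ) / (a⁻¹ - a)) rfl rfl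
  set n : ℤ := f.coeff 1 - Q.coeff 1 with hn
  set g2 : ℤ := f.coeff 2 - Q.coeff 2 - n * Q.coeff 1 with hg2
  obtain ⟨q, hq⟩ : ∃ q : ℝ, q = 1 + p - p ^ 2 := ⟨_, rfl⟩
  obtain ⟨m, hm⟩ : ∃ m : ℝ, m = p / a := ⟨_, rfl⟩
  obtain ⟨s, hs⟩ : ∃ s : ℝ, s = q - m := ⟨_, rfl⟩
  have hqj : q = p * (j + 1) := by rw [hq]; linarith
  have hm1 : 1 ≤ m := by rw [hm, le_div_iff₀ ha]; linarith
  have hm0 : 0 < m := by linarith
  have hs0 : 0 ≤ s := by
    have : p / a ≤ p * (j + 1) := by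
      rw [div_le_iff₀ ha]
      have := mul_le_mul_of_nonneg_left hth hp0.le
      linarith
    rw [hs, hm, hqj]; linarith
  have ham : a = p / m := by rw [hm]; field_simp
  obtain ⟨M, hM⟩ : ∃ M : ℝ, M = m ^ 2 - p ^ 2 := ⟨_, rfl⟩
  have hMpos : 0 < M := by rw [hM]; nlinarith
  have hXi : a⁻¹ - a = M / (p * m) := by
    rw [ham, hM]
    field_simp
  have hB1 := odd0 hp0 hp5 hm1 hq hs hM ham hr hrb hr1
  have hpk := (abs_le.mp hpick).2
  rcases lt_or_eq_of_le (Int.add_one_le_iff.mpr hcon) with hlt | heq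
  · -- n ≥ j + 2
    have hn2 : ((j : ℝ) + 2) ≤ n := by
      have : (j : ℤ) + 2 ≤ n := by omega
      exact_mod_cast this
    set g1 : ℝ := 1 - (n : ℝ) / (a⁻¹ - a) with hg1
    have hXi0 : 0 < a⁻¹ - a := by rw [hXi]; positivity
    have h1 : p + g1 < 0 := by
      have h2 : (1 + p) * (a⁻¹ - a) < j + 2 := by
        have h3 : (j : ℝ) + 2 = (q + p) / p := by rw [hqj]; field_simp; ring
        rw [hXi, h3, ← mul_div_assoc, div_lt_div_iff₀ (by positivity) hp0, hM]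
        have h4 : m ≤ q := by linarith
        have h5 : m * ((1 + p) * m - (q + p)) ≤ m * ((1 + p) * q - (q + p)) := by
          refine mul_le_mul_of_nonneg_left ?_ hm0.le
          nlinarith
        have h6 : (1 + p) * q - (q + p) = p ^ 2 - p ^ 3 := by rw [hq]; ring
        rw [h6] at h5
        have h7 : m * (p ^ 2 - p ^ 3) ≤ q * (p ^ 2 - p ^ 3) := by
          refine mul_le_mul_of_nonneg_right h4 ?_
          nlinarith [sq_nonneg p]
        have h8 : q * (p ^ 2 - p ^ 3) < p ^ 2 * (1 + p) := by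
          rw [hq]
          have : (1 + p - p ^ 2) * (p ^ 2 - p ^ 3) - p ^ 2 * (1 + p) =
            -(p ^ 3 * (1 + 2 * p - p ^ 2)) := by ring
          have h9 : 0 < p ^ 3 * (1 + 2 * p - p ^ 2) := by
            have : 0 < 1 + 2 * p - p ^ 2 := by nlinarith
            positivity
          linarith
        nlinarith
      have h3 : 1 + p < n / (a⁻¹ - a) := by
        rw [lt_div_iff₀ hXi0]
        linarith
      rw [hg1]; linarith
    have hg1l := abs_le.mp hg1le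
    have h2 : r1 * (1 + p * g1) ≤ p + g1 := by linarith
    have h3 : 0 < 1 + p * g1 := by nlinarith
    have h4 : r1 < 0 := by
      by_contra h5
      push Not at h5
      have := mul_nonneg h5 h3.le
      linarith
    have h5 : 0 < m * (p ^ 2 + s) - p ^ 3 := by
      have : p ^ 3 < p ^ 2 := by nlinarith [sq_nonneg p, pow_pos hp0 2]
      nlinarith [sq_nonneg p]
    have h6 : 0 < m ^ 2 - p * m - p ^ 2 * m + p := by nlinarith
    have h7 : p * (m ^ 2 - p * m - p ^ 2 * m + p) * r1 < 0 :=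
      mul_neg_of_pos_of_neg (mul_pos hp0 h6) h4
    linarith
  · -- n = j + 1
    have hnj : (n : ℝ) = j + 1 := by exact_mod_cast heq.symm
    have hnq : (n : ℝ) = q / p := by rw [hnj, hqj]; field_simp
    obtain ⟨T, hT⟩ : ∃ T : ℝ, T = s * m + p ^ 2 := ⟨_, rfl⟩
    obtain ⟨K, hK⟩ : ∃ K : ℝ, K = p ^ 3 - m ^ 2 * s := ⟨_, rfl⟩
    have hg1 : 1 - (n : ℝ) / (a⁻¹ - a) = -(T / M) := by
      have hMT : M + T = m * q := by rw [hM, hT, hs]; ring
      have hT' : T = m * q - M := by linarith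
      rw [hXi, hnq, hT']
      field_simp
      ring
    rw [hg1] at hpk hnext hpick
    have hle : r1 + T / M ≤ p * (1 + T / M * r1) := by
      have e1 : r1 - -(T / M) = r1 + T / M := by ring
      have e2 : p * (1 - -(T / M) * r1) = p * (1 + T / M * r1) := by ring
      rw [e1, e2] at hpk
      exact hpk
    obtain ⟨hL1, hZ⟩ := odd1 hp0 hp5 hm1 hq hs hs0 hK hM hT hB1 hle
    have hlt1 : |-(T / M)| < 1 := by
      have hT0 : 0 < T := by rw [hT]; positivity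
      rw [abs_neg, abs_of_pos (by positivity), div_lt_one hMpos]
      have hK0 : 0 < K := by
        have h1 : 0 < 2 * p ^ 4 * m * (m + p) := by positivity
        have h2 : 0 < (1 + p) ^ 2 * K := by linarith
        exact (pos_iff_pos_of_mul_pos h2).mp (by positivity)
      have hsp : s ≤ p ^ 3 := by
        have h1 : m ^ 2 * s < p ^ 3 := by linarith
        have h2 : s ≤ m ^ 2 * s := le_mul_of_one_le_left hs0 (one_le_pow₀ hm1)
        linarith
      have hp3 : p ^ 3 ≤ 1 / 13 := by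
        have : p ^ 3 ≤ (5 / 12) ^ 3 := pow_le_pow_left₀ hp0.le hp5 3
        linarith [show ((5 : ℝ) / 12) ^ 3 ≤ 1 / 13 by norm_num]
      rw [hT, hM]
      have : s * m ≤ 1 / 13 * m := mul_le_mul_of_nonneg_right (hsp.trans hp3) hm0.le
      nlinarith
    obtain ⟨r2, g, hr2, hr2le, hg, hg2e, hpick2⟩ := hnext hlt1
    have hjp : (j : ℝ) = (1 - p ^ 2) / p := by field_simp; linarith
    rw [hnq] at hg2e
    obtain ⟨hlo, hhi⟩ := odd2 hp0 hp5 hm1 hq hs hs0 hK hM hT ham hr1le hB1 hL1 hZ rfl hr2 hg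
      (abs_le.mp hpick2).2 hXi hjp hg2e
    have h1 : (j : ℤ) * (j + 1) < g2 := by exact_mod_cast hlo
    have h2 : g2 < (j : ℤ) * (j + 1) + 1 := by exact_mod_cast hhi
    omega

end Pool.Agent.B5.Nr.Sch
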