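import Pool.Agent.Lib.MP_b5021c_nt.IfaceKO
import Pool.Agent.Lib.MP_b5021c_nt.W.H80.Even2
import Pool.Agent.Lib.MP_b5021c_nt.W.H80.Odd

/-!
# Rows KO_WUO, KO_WOO: the windows for K odd
-/

namespace Pool.Agent.B5.Nr.Sch

open Polynomial

/-- (KO_WUO) -/
theorem ko_wuo : WuoS := by
  intro q f a p j h hu hj hp0 hpj hap hja hB
  have ha := h.a0
  have hjR : (2 : ℝ) ≤ j := by exact_mod_cast hj
  have hpp : p * p⁻¹ = 1 := mul_inv_cancel₀ hp0.ne'
  have hp : p ^ 2 + j * p = 1 := by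
    have h1 : p * (p⁻¹ - p) = p * j := by rw [hpj]
    rw [mul_sub, hpp] at h1
    linarith
  have hp1 : p < 1 := by nlinarith
  have hd : p - a ≤ a * p * (1 - p) := by
    have h1 : p * ((j : ℝ) + 1) = 1 + p - p ^ 2 := by linarith
    have h2 : p * 1 ≤ p * (((j : ℝ) + 1) * a) := mul_le_mul_of_nonneg_left hja.le hp0.le
    have h3 : p * (((j : ℝ) + 1) * a) = a * (1 + p - p ^ 2) := by rw [← h1]; ring
    rw [h3] at h2
    nlinarith
  have := u_win h hp0 hp1 hap hd hB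
  omega

/-- (KO_WOO) -/
theorem ko_woo : WooS := by
  intro q f a p j h hu hj hp0 hpj hap hja hn hB
  have hpp : p * p⁻¹ = 1 := mul_inv_cancel₀ hp0.ne'
  have hp : p ^ 2 + j * p = 1 := by
    have h1 : p * (p⁻¹ - p) = p * j := by rw [hpj]
    rw [mul_sub, hpp] at h1
    linarith
  exact odd_win h hu hj hp0 hp hap (by linarith) hB

end Pool.Agent.B5.Nr.Sch
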