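import Pool.Agent.Lib.MP_b5021c_nt.W.H80.Ser

/-!
# MP_b5021c_nt, all `θ`: `u ≥ 2` and the windows for even rank (finding 3510 (0), (2))
-/

namespace Pool.Agent.B5.Nr.Sch

open Polynomial

/-- The value at `p`. -/
theorem Loc.val {Q f : ℤ[X]} {a : ℝ} (h : Loc Q f a) {p : ℝ} (hp0 : 0 < p) (hp1 : p < 1)
    (hB : (aeval p Q : ℝ) + p * aeval p f ≤ 0) : ∃ r : ℝ, |r| ≤ 1 ∧
      -(p - a) / (p * (1 - a * p)) ≤ r ∧
      |r + a * f.coeff 0| ≤ p * (1 + a * f.coeff 0 * r) ∧ |a * f.coeff 0| ≤ 1 := by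
  obtain ⟨s, hs, hsp, s0, s1, s2, hneg⟩ := h.sp
  have ha := h.a0
  have ha1 := h.a1
  set F : ℝ[X] := f.map (Int.castRingHom ℝ) with hF
  set R : ℝ[X] := s * (1 - C a * X) with hR
  have f0 : F.coeff 0 = f.coeff 0 := by rw [hF, coeff_map]; rfl
  have r0 : R.coeff 0 = -a⁻¹ := by
    have hRX : R = s - C a * (X * s) := by rw [hR]; ring
    rw [hRX, coeff_sub, coeff_C_mul, coeff_X_mul_zero, mul_zero, sub_zero, s0]
  have hg0 : F.coeff 0 = -(a * f.coeff 0) * R.coeff 0 := by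
    rw [f0, r0]; field_simp
  have hx : |p| ≤ 1 := by rw [abs_of_pos hp0]; exact hp1.le
  have hRp := (hsp.ev hx).1
  have hpick := hsp.pick hg0 hp0.le hp1.le
  have hua : |a * (f.coeff 0 : ℝ)| ≤ 1 := by
    have h1 := hsp.coeff_le.2
    rw [f0, r0, abs_neg, abs_of_pos (inv_pos.mpr ha)] at h1
    rw [abs_mul, abs_of_pos ha]
    have h2 := mul_le_mul_of_nonneg_left h1 ha.le
    rwa [mul_inv_cancel₀ ha.ne'] at h2
  refine ⟨F.eval p / R.eval p, hsp.ratio hx, ?_, ?_, hua⟩
  · have e1 : R.eval p = s.eval p * (1 - a * p) := by rw [hR, eval_mul]; simp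
    have e2 : (aeval p Q : ℝ) = (p - a) * s.eval p := by
      have h1 : (aeval p Q : ℝ) = (Q.map (Int.castRingHom ℝ)).eval p := by
        rw [eval_map]; rfl
      rw [h1, hs, eval_mul]; simp
    have e3 : (aeval p f : ℝ) = F.eval p := by
      rw [hF, eval_map]; rfl
    have hsn := hneg p hp0.le hp1.le
    have h1ap : 0 < 1 - a * p := by nlinarith
    have hRn : R.eval p < 0 := by rw [e1]; exact mul_neg_of_neg_of_pos hsn h1ap
    rw [e2, e3] at hB
    rw [div_le_iff₀ (mul_pos hp0 h1ap)]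
    have h2 : F.eval p / R.eval p * (p * (1 - a * p)) * R.eval p =
        F.eval p * p * (1 - a * p) := by
      field_simp
    by_contra hcon
    push Not at hcon
    have h3 := mul_lt_mul_of_neg_right hcon hRn
    rw [h2, e1] at h3
    nlinarith [mul_nonneg_of_nonpos_of_nonpos hB (by linarith : -(1 - a * p) ≤ 0)]
  · have e1 : F.eval p / R.eval p - -(a * f.coeff 0) = F.eval p / R.eval p + a * f.coeff 0 := by
      ring
    have e2 : 1 - -(a * (f.coeff 0 : ℝ)) * (F.eval p / R.eval p) =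
        1 + a * f.coeff 0 * (F.eval p / R.eval p) := by ring
    rw [e1, e2] at hpick
    exact hpick

/-- `u ≥ 2` is impossible when the load `y = 1` is good (both parities). -/
theorem u_win {Q f : ℤ[X]} {a p : ℝ} (h : Loc Q f a) (hp0 : 0 < p) (hp1 : p < 1)
    (hap : a ≤ p) (hd : p - a ≤ a * p * (1 - p))
    (hB : (aeval p Q : ℝ) + p * aeval p f ≤ 0) : f.coeff 0 ≤ 1 := by
  by_contra hcon
  push Not at hcon
  obtain ⟨r, hr, hrb, hpk, hua⟩ := h.val hp0 hp1 hB
  have ha := h.a0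
  have ha1 := h.a1
  set u : ℝ := (f.coeff 0 : ℝ) with hu
  have hu2 : 2 ≤ u := by
    have : (2 : ℤ) ≤ f.coeff 0 := by omega
    rw [hu]; exact_mod_cast this
  have hrl := abs_le.mp hr
  have hpu := (abs_le.mp hpk).2
  have hau := (abs_le.mp hua).2
  have h1ap : 0 < 1 - a * p := by nlinarith
  have h1 : r * (1 - a * u * p) ≤ p - a * u := by linarith
  have h2 : -(p - a) ≤ r * (p * (1 - a * p)) := by
    rwa [div_le_iff₀ (mul_pos hp0 h1ap)] at hrb
  have h3 : 0 < 1 - a * u * p := by nlinarith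
  have h4 : (a * u - p) * (p * (1 - a * p)) ≤ (p - a) * (1 - a * u * p) := by
    have h5 := mul_le_mul_of_nonneg_right h1 (mul_pos hp0 h1ap).le
    have h6 := mul_le_mul_of_nonneg_right h2 h3.le
    have e1 : r * (1 - a * u * p) * (p * (1 - a * p)) =
      r * (p * (1 - a * p)) * (1 - a * u * p) := by ring
    rw [e1] at h5
    have e2 : (p - a * u) * (p * (1 - a * p)) = -((a * u - p) * (p * (1 - a * p))) := by ring
    have e3 : -(p - a) * (1 - a * u * p) = -((p - a) * (1 - a * u * p)) := by ring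
    rw [e2] at h5
    rw [e3] at h6
    linarith
  have hau2 : 2 * a ≤ a * u := by nlinarith
  have h5 : (2 * a - p) * (p * (1 - a * p)) ≤ (p - a) * (1 - 2 * a * p) := by
    have h6 : (2 * a - p) * (p * (1 - a * p)) ≤ (a * u - p) * (p * (1 - a * p)) :=
      mul_le_mul_of_nonneg_right (by linarith) (mul_pos hp0 h1ap).le
    have h7 : (p - a) * (1 - a * u * p) ≤ (p - a) * (1 - 2 * a * p) := by
      refine mul_le_mul_of_nonneg_left ?_ (by linarith)
      nlinarith
    linarith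
  have h6 : a * (1 - p + p ^ 2) ≤ 2 * a - p := by nlinarith
  have h7 : a * (1 - p + p ^ 2) * (p * (1 - a * p)) ≤ (2 * a - p) * (p * (1 - a * p)) :=
    mul_le_mul_of_nonneg_right h6 (mul_pos hp0 h1ap).le
  have hap0 : 0 < a * p := mul_pos ha hp0
  rcases le_or_gt 0 (1 - 2 * a * p) with h8 | h8
  · have h9 : (p - a) * (1 - 2 * a * p) ≤ a * p * (1 - p) * (1 - 2 * a * p) :=
      mul_le_mul_of_nonneg_right hd h8
    have h10 : 0 < a * p * (p ^ 2 * (1 - a * p) + (1 - p) * (a * p)) := by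
      refine mul_pos hap0 (add_pos_of_pos_of_nonneg (mul_pos (by positivity) h1ap) ?_)
      exact mul_nonneg (by linarith) hap0.le
    have e : a * (1 - p + p ^ 2) * (p * (1 - a * p)) - a * p * (1 - p) * (1 - 2 * a * p) =
        a * p * (p ^ 2 * (1 - a * p) + (1 - p) * (a * p)) := by ring
    linarith
  · have h9 : (p - a) * (1 - 2 * a * p) ≤ 0 :=
      mul_nonpos_of_nonneg_of_nonpos (by linarith) h8.le
    have h10 : 0 < a * (1 - p + p ^ 2) * (p * (1 - a * p)) := by
      have : 0 < 1 - p + p ^ 2 := by nlinarith [sq_nonneg p]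
      positivity
    linarith

/-- The lower bound for `r1` (general). -/
theorem lowB {p m a r r1 : ℝ} (hp0 : 0 < p) (hp : p < 1) (hm1 : 1 ≤ m) (ha : a = p / m)
    (hr : |r| ≤ 1) (hrb : -(p - a) / (p * (1 - a * p)) ≤ r)
    (hr1 : r1 = (r + a) / (p * (1 + a * r))) :
    m * (1 + p - m) - p ^ 3 ≤ p * (m ^ 2 - p * m - p ^ 2 * m + p) * r1 := by
  have hm0 : 0 < m := by linarith
  have hmp : p ^ 2 < 1 := by nlinarith
  have hrl := abs_le.mp hr
  have h1 : 0 < m + p * r := by nlinarith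
  have h2 : 0 < 1 + a * r := by
    have : 1 + a * r = (m + p * r) / m := by rw [ha]; field_simp
    rw [this]; exact div_pos h1 hm0
  have h3 : r1 * (p * (m + p * r)) = m * r + p := by
    rw [hr1, ha]
    have h4 : 1 + p / m * r ≠ 0 := by rw [← ha]; exact h2.ne'
    have h4' : m + r * p ≠ 0 := by rw [mul_comm r p]; exact h1.ne'
    field_simp
  have h5 : 0 ≤ (m - p ^ 2) * r + (m - 1) := by
    have h6 : 0 < m - p ^ 2 := by linarith
    have h7 : -(p - a) / (p * (1 - a * p)) = -(m - 1) / (m - p ^ 2) := by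
      rw [ha]
      have h8 : 1 - p / m * p ≠ 0 := by
        have : 1 - p / m * p = (m - p ^ 2) / m := by field_simp
        rw [this]; exact (div_pos h6 hm0).ne'
      rw [div_eq_div_iff (mul_ne_zero hp0.ne' h8) h6.ne']
      field_simp
    rw [h7, div_le_iff₀ h6] at hrb
    linarith
  have hM : 0 < m ^ 2 - p ^ 2 := by nlinarith
  have h6 : (p * (m ^ 2 - p * m - p ^ 2 * m + p) * r1 - (m * (1 + p - m) - p ^ 3)) * (m + p * r) =
      (m ^ 2 - p ^ 2) * ((m - p ^ 2) * r + (m - 1)) := by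
    have : (p * (m ^ 2 - p * m - p ^ 2 * m + p) * r1 - (m * (1 + p - m) - p ^ 3)) * (m + p * r) =
      (m ^ 2 - p * m - p ^ 2 * m + p) * (r1 * (p * (m + p * r))) -
        (m * (1 + p - m) - p ^ 3) * (m + p * r) := by ring
    rw [this, h3]
    ring
  have h7 : 0 ≤ p * (m ^ 2 - p * m - p ^ 2 * m + p) * r1 - (m * (1 + p - m) - p ^ 3) := by
    by_contra hcon
    push Not at hcon
    have := mul_neg_of_neg_of_pos hcon h1
    rw [h6] at this
    exact absurd (mul_nonneg hM.le h5) (not_le.mpr this)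
  linarith

/-- **The window for even rank**, `j ≥ 3`, or `j = 2` and `n ≥ 3`. -/
theorem even_win' {Q f : ℤ[X]} {a p : ℝ} {j : ℕ} (h : Loc Q f a) (hu : f.coeff 0 = 1)
    (hj : 2 ≤ j) (hp : p = 1 / j) (hap : a ≤ p) (hXi : a⁻¹ - a < j)
    (hB : (aeval p Q : ℝ) + p * aeval p f ≤ 0) :
    f.coeff 1 - Q.coeff 1 ≤ 1 ∨ (j = 2 ∧ f.coeff 1 - Q.coeff 1 = 2) := by
  by_contra hcon
  rw [not_or] at hcon
  obtain ⟨hn1, hn2⟩ := hcon
  push Not at hn1
  have ha := h.a0
  have ha1 := h.a1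
  have hjR : (2 : ℝ) ≤ j := by exact_mod_cast hj
  have hj0 : (0 : ℝ) < j := by linarith
  have hp0 : 0 < p := by rw [hp]; positivity
  have hpj : p * j = 1 := by rw [hp]; field_simp
  have hp12 : p ≤ 1 / 2 := by nlinarith
  have hp1 : p < 1 := by linarith
  obtain ⟨r, r1, hr, hrb, hr1, hr1le, hg1le, hpick, -⟩ := h.steps hu hp0 hp1 hB hap
    (n := f.coeff 1 - Q.coeff 1)
    (g2 := f.coeff 2 - Q.coeff 2 - (f.coeff 1 - Q.coeff 1) * Q.coeff 1) rfl rfl
    (Xi := a⁻¹ - a) (g1 := 1 - ((f.coeff 1 - Q.coeff 1 : ℤ) : ℝ) / (a⁻¹ - a)) rfl rfl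
  set n : ℤ := f.coeff 1 - Q.coeff 1 with hn
  set Xi : ℝ := a⁻¹ - a with hXid
  have hXi0 : 0 < Xi := by
    have : 1 < a⁻¹ := (one_lt_inv₀ ha).mpr ha1
    rw [hXid]; linarith
  obtain ⟨m, hm⟩ : ∃ m : ℝ, m = p / a := ⟨_, rfl⟩
  have hm1 : 1 ≤ m := by rw [hm, le_div_iff₀ ha]; linarith
  have hm0 : 0 < m := by linarith
  have ham : a = p / m := by rw [hm]; field_simp
  have hB1 := lowB hp0 hp1 hm1 ham hr hrb hr1
  have hpk := (abs_le.mp hpick).2
  -- `m² < m + p²`
  have hmm : m ^ 2 < m + p ^ 2 := by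
    have h1 : Xi = (m ^ 2 - p ^ 2) / (p * m) := by
      rw [hXid, ham]; field_simp
    have h2 : Xi * p < 1 := by
      calc Xi * p < j * p := mul_lt_mul_of_pos_right hXi hp0
        _ = 1 := by linarith
    rw [h1, div_mul_eq_mul_div, div_lt_one (by positivity)] at h2
    have h3 : (m ^ 2 - p ^ 2) * p < m * p := by linarith
    have := lt_of_mul_lt_mul_right h3 hp0.le
    linarith
  set g1 : ℝ := 1 - (n : ℝ) / Xi with hg1
  have hg1l := abs_le.mp hg1le
  have hD : 0 < m ^ 2 - p * m - p ^ 2 * m + p := by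
    have h1 : 0 ≤ m - p - p ^ 2 := by nlinarith
    have h2 := mul_nonneg hm0.le h1
    have e : m ^ 2 - p * m - p ^ 2 * m + p = m * (m - p - p ^ 2) + p := by ring
    rw [e]; linarith
  have h1 : r1 * (1 + p * g1) ≤ p + g1 := by linarith
  have h1p : 0 < 1 + p * g1 := by nlinarith
  rcases Nat.lt_or_ge j 3 with hj3 | hj3
  · -- j = 2, n ≥ 3
    have hj2 : j = 2 := by omega
    have hn3 : (3 : ℝ) ≤ n := by
      have : (3 : ℤ) ≤ n := by
        rcases lt_or_ge n 3 with h2 | h2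
        · exact absurd ⟨hj2, by omega⟩ hn2
        · exact h2
      exact_mod_cast this
    have hp2 : p = 1 / 2 := by rw [hp, hj2]; norm_num
    have hXi2 : Xi < 2 := by rw [hj2] at hXi; exact_mod_cast hXi
    have h2 : g1 < -(1 / 2) := by
      have : 3 / 2 < (n : ℝ) / Xi := by
        rw [lt_div_iff₀ hXi0]; linarith
      rw [hg1]; linarith
    have h3 : r1 < 0 := by
      by_contra h4
      push Not at h4
      have := mul_nonneg h4 h1p.le
      rw [hp2] at h1 this
      linarith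
    have h4 : 0 < m * (1 + p - m) - p ^ 3 := by
      rw [hp2] at hmm ⊢
      nlinarith
    have h5 : p * (m ^ 2 - p * m - p ^ 2 * m + p) * r1 < 0 :=
      mul_neg_of_pos_of_neg (mul_pos hp0 hD) h3
    linarith
  · -- j ≥ 3
    have hn2' : (2 : ℝ) ≤ n := by
      have : (2 : ℤ) ≤ n := by omega
      exact_mod_cast this
    have hj3R : (3 : ℝ) ≤ j := by exact_mod_cast hj3
    have hp3 : p ≤ 1 / 3 := by nlinarith
    have h2 : g1 < 1 - 2 * p := by
      have : 2 * p < (n : ℝ) / Xi := by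
        rw [lt_div_iff₀ hXi0]
        have : Xi * p < 1 := by
          calc Xi * p < j * p := mul_lt_mul_of_pos_right hXi hp0
            _ = 1 := by linarith
        linarith
      rw [hg1]; linarith
    have h3 : r1 * (1 + 2 * p) < 1 := by
      have h4 : (p + g1) * (1 + 2 * p) < 1 + p * g1 := by
        have e : 1 + p * g1 - (p + g1) * (1 + 2 * p) = (1 + p) * (1 - 2 * p - g1) := by ring
        have := mul_pos (by linarith : 0 < 1 + p) (by linarith : 0 < 1 - 2 * p - g1)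
        linarith
      have h5 : r1 * (1 + p * g1) * (1 + 2 * p) ≤ (p + g1) * (1 + 2 * p) :=
        mul_le_mul_of_nonneg_right h1 (by linarith)
      have h6 : r1 * (1 + 2 * p) * (1 + p * g1) < 1 * (1 + p * g1) := by linarith
      exact lt_of_mul_lt_mul_right h6 h1p.le
    have h4 : (m * (1 + p - m) - p ^ 3) * (1 + 2 * p) <
        p * (m ^ 2 - p * m - p ^ 2 * m + p) := by
      have h5 : (m * (1 + p - m) - p ^ 3) * (1 + 2 * p) ≤
          p * (m ^ 2 - p * m - p ^ 2 * m + p) * r1 * (1 + 2 * p) :=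
        mul_le_mul_of_nonneg_right hB1 (by linarith)
      have h6 : p * (m ^ 2 - p * m - p ^ 2 * m + p) * (r1 * (1 + 2 * p)) <
          p * (m ^ 2 - p * m - p ^ 2 * m + p) * 1 :=
        mul_lt_mul_of_pos_left h3 (mul_pos hp0 hD)
      linarith
    -- E > 0
    have e : (m * (1 + p - m) - p ^ 3) * (1 + 2 * p) - p * (m ^ 2 - p * m - p ^ 2 * m + p) =
        m * (1 + 3 * p + 3 * p ^ 2 + p ^ 3) - m ^ 2 * (1 + 3 * p) - p ^ 2 - p ^ 3 -
          2 * p ^ 4 := by ring
    rcases Nat.lt_or_ge j 4 with hj4 | hj4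
    · have hj3' : j = 3 := by omega
      have hp3' : p = 1 / 3 := by rw [hp, hj3']; norm_num
      rw [hp3'] at e h4 hmm
      have hm2 : m ≤ 1101 / 1000 := by
        by_contra h5
        push Not at h5
        nlinarith
      have h7 := mul_nonneg (by linarith : 0 ≤ m - 1) (by linarith : 0 ≤ 1101 / 1000 - m)
      have e2 : (m - 1) * (1101 / 1000 - m) = 2101 / 1000 * m - m ^ 2 - 1101 / 1000 := by ring
      rw [e2] at h7
      linarith
    · have hj4R : (4 : ℝ) ≤ j := by exact_mod_cast hj4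
      have hp4 : p ≤ 1 / 4 := by nlinarith
      have h5 : m ^ 2 * (1 + 3 * p) ≤ (m + p ^ 2) * (1 + 3 * p) :=
        mul_le_mul_of_nonneg_right hmm.le (by linarith)
      have h6 : 0 < p ^ 2 * (1 - 3 * p - 2 * p ^ 2) := by
        have : 0 < 1 - 3 * p - 2 * p ^ 2 := by nlinarith
        positivity
      have h7 : 0 ≤ (m - 1) * (3 * p ^ 2 + p ^ 3) := by
        have : 0 ≤ 3 * p ^ 2 + p ^ 3 := by positivity
        exact mul_nonneg (by linarith) this
      have e2 : m * (1 + 3 * p + 3 * p ^ 2 + p ^ 3) - (m + p ^ 2) * (1 + 3 * p) - p ^ 2 - p ^ 3 -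
          2 * p ^ 4 = (m - 1) * (3 * p ^ 2 + p ^ 3) + p ^ 2 * (1 - 3 * p - 2 * p ^ 2) := by ring
      linarith

end Pool.Agent.B5.Nr.Sch
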