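import Pool.Agent.Lib.MP_b5021c_nt.W.H80.Win

/-!
# MP_b5021c_nt, all `θ`: the Schur algorithm with truncated power series
-/

namespace Pool.Agent.B5.Nr.Sch

open Polynomial

/-- A Schur pair whose quotient agrees with `A/B` up to order `k`. -/
structure SS (k : ℕ) (F R A B : ℝ[X]) : Prop where
  sp : SP F R
  dv : X ^ (k + 1) ∣ F * B - R * A

theorem SS.eq0 {k : ℕ} {F R A B : ℝ[X]} (h : SS k F R A B) :
    F.coeff 0 * B.coeff 0 = R.coeff 0 * A.coeff 0 := by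
  have h1 : (X : ℝ[X]) ∣ F * B - R * A := (dvd_pow_self X (Nat.succ_ne_zero k)).trans h.dv
  rw [X_dvd_iff, coeff_sub, mul_coeff_zero, mul_coeff_zero] at h1
  linarith

theorem SS.le {k : ℕ} {F R A B : ℝ[X]} (h : SS k F R A B) : |A.coeff 0| ≤ |B.coeff 0| := by
  obtain ⟨h1, h2⟩ := h.sp.coeff_le
  have h3 := congrArg abs h.eq0
  rw [abs_mul, abs_mul] at h3
  have h4 : 0 < |R.coeff 0| := abs_pos.mpr h1
  have h5 : |R.coeff 0| * |A.coeff 0| ≤ |R.coeff 0| * |B.coeff 0| := by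
    rw [← h3]
    exact mul_le_mul_of_nonneg_right h2 (abs_nonneg _)
  exact le_of_mul_le_mul_left h5 h4

theorem SS.step {k : ℕ} {F R A B A' B' : ℝ[X]} (h : SS (k + 1) F R A B)
    (hlt : |A.coeff 0| < |B.coeff 0|)
    (hA : X * A' = C (B.coeff 0) * A - C (A.coeff 0) * B)
    (hB : B' = C (B.coeff 0) * B - C (A.coeff 0) * A) :
    ∃ F' R' : ℝ[X], SS k F' R' A' B' := by
  have hb : B.coeff 0 ≠ 0 := by
    intro h0
    rw [h0, abs_zero] at hlt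
    exact absurd hlt (not_lt.mpr (abs_nonneg _))
  set g : ℝ := A.coeff 0 / B.coeff 0 with hg
  have hg1 : |g| < 1 := by rw [hg, abs_div, div_lt_one (abs_pos.mpr hb)]; exact hlt
  have h0 : F.coeff 0 = g * R.coeff 0 := by
    have := h.eq0
    rw [hg]
    field_simp
    linarith
  obtain ⟨F', hF'⟩ := exists_quot F R h0
  refine ⟨F', R - C g * F, h.sp.step hg1 hF', ?_⟩
  obtain ⟨W, hW⟩ := h.dv
  have hgb : C (B.coeff 0) * C g = C (A.coeff 0) := by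
    rw [← C_mul, hg, mul_div_cancel₀ _ hb]
  have key : C (B.coeff 0) * (X * (F' * B' - (R - C g * F) * A')) =
      X * (X ^ (k + 1) * (C (B.coeff 0 ^ 2 - A.coeff 0 ^ 2) * W)) := by
    have e1 : C (B.coeff 0) * (X * (F' * B' - (R - C g * F) * A')) =
        C (B.coeff 0) * (X * F') * B' - (C (B.coeff 0) * R - C (B.coeff 0) * C g * F) * (X * A') := by
      ring
    have e2 : C (B.coeff 0) * (X * F') = C (B.coeff 0) * F - C (A.coeff 0) * R := by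
      rw [hF', mul_sub, ← mul_assoc, hgb]
    rw [e1, e2, hgb, hA, hB]
    have e3 : X * (X ^ (k + 1) * (C (B.coeff 0 ^ 2 - A.coeff 0 ^ 2) * W)) =
        C (B.coeff 0 ^ 2 - A.coeff 0 ^ 2) * (F * B - R * A) := by
      rw [hW]; ring
    rw [e3, C_sub, C_pow, C_pow]
    ring
  have hX : (X : ℝ[X]) ≠ 0 := X_ne_zero
  have e4 : X * (C (B.coeff 0) * (F' * B' - (R - C g * F) * A')) =
      X * (X ^ (k + 1) * (C (B.coeff 0 ^ 2 - A.coeff 0 ^ 2) * W)) := by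
    rw [← key]; ring
  have e5 := mul_left_cancel₀ hX e4
  refine ⟨C (B.coeff 0)⁻¹ * (C (B.coeff 0 ^ 2 - A.coeff 0 ^ 2) * W), ?_⟩
  have e6 : C (B.coeff 0)⁻¹ * C (B.coeff 0) = (1 : ℝ[X]) := by
    rw [← C_mul, inv_mul_cancel₀ hb, C_1]
  calc F' * B' - (R - C g * F) * A'
      = C (B.coeff 0)⁻¹ * C (B.coeff 0) * (F' * B' - (R - C g * F) * A') := by rw [e6, one_mul]
    _ = C (B.coeff 0)⁻¹ * (X ^ (k + 1) * (C (B.coeff 0 ^ 2 - A.coeff 0 ^ 2) * W)) := by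
        rw [mul_assoc, e5]
    _ = _ := by ring

/-- Polynomials of degree at most four. -/
noncomputable def p5 (a0 a1 a2 a3 a4 : ℝ) : ℝ[X] :=
  C a0 + X * (C a1 + X * (C a2 + X * (C a3 + X * C a4)))

@[simp] theorem p5_coeff (a0 a1 a2 a3 a4 : ℝ) : (p5 a0 a1 a2 a3 a4).coeff 0 = a0 := by
  unfold p5
  rw [coeff_add, coeff_C_zero, coeff_X_mul_zero, add_zero]

/-- One step with explicit coefficients. -/
theorem SS.step5 {k : ℕ} {F R : ℝ[X]} {a0 a1 a2 a3 a4 b0 b1 b2 b3 b4 : ℝ}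
    (h : SS (k + 1) F R (p5 a0 a1 a2 a3 a4) (p5 b0 b1 b2 b3 b4)) (hlt : |a0| < |b0|) :
    ∃ F' R' : ℝ[X], SS k F' R'
      (p5 (b0 * a1 - a0 * b1) (b0 * a2 - a0 * b2) (b0 * a3 - a0 * b3) (b0 * a4 - a0 * b4) 0)
      (p5 (b0 * b0 - a0 * a0) (b0 * b1 - a0 * a1) (b0 * b2 - a0 * a2) (b0 * b3 - a0 * a3)
        (b0 * b4 - a0 * a4)) := by
  refine h.step (by simpa using hlt) ?_ ?_
  · rw [p5_coeff, p5_coeff]
    unfold p5
    simp only [C_sub, C_mul, C_0]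
    ring
  · rw [p5_coeff, p5_coeff]
    unfold p5
    simp only [C_sub, C_mul]
    ring

theorem SS.le5 {k : ℕ} {F R : ℝ[X]} {a0 a1 a2 a3 a4 b0 b1 b2 b3 b4 : ℝ}
    (h : SS k F R (p5 a0 a1 a2 a3 a4) (p5 b0 b1 b2 b3 b4)) : |a0| ≤ |b0| := by
  simpa using h.le

/-- The series of `f/Q` modulo `X^5`. -/
theorem Loc.series {Q f : ℤ[X]} {a : ℝ} (h : Loc Q f a) (hu : f.coeff 0 = 1) :
    ∃ (n g2 g3 g4 : ℤ) (F R : ℝ[X]), n = f.coeff 1 - Q.coeff 1 ∧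
      g2 = f.coeff 2 - Q.coeff 2 - n * Q.coeff 1 ∧
      SS 4 F R (p5 (-a) (1 - n * a) (n - g2 * a) (g2 - g3 * a) (g3 - g4 * a))
        (p5 1 (-a) 0 0 0) := by
  obtain ⟨s, hs, hsp, -, -, -, -⟩ := h.sp
  obtain ⟨n, hn⟩ : ∃ n : ℤ, n = f.coeff 1 - Q.coeff 1 := ⟨_, rfl⟩
  obtain ⟨g2, hg2⟩ : ∃ g2 : ℤ, g2 = f.coeff 2 - Q.coeff 2 - n * Q.coeff 1 := ⟨_, rfl⟩
  obtain ⟨g3, hg3⟩ : ∃ g3 : ℤ, g3 = f.coeff 3 - Q.coeff 3 - n * Q.coeff 2 - g2 * Q.coeff 1 :=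
    ⟨_, rfl⟩
  obtain ⟨g4, hg4⟩ : ∃ g4 : ℤ, g4 = f.coeff 4 - Q.coeff 4 - n * Q.coeff 3 - g2 * Q.coeff 2 -
    g3 * Q.coeff 1 := ⟨_, rfl⟩
  refine ⟨n, g2, g3, g4, _, _, hn, hg2, hsp, ?_⟩
  -- the integral statement
  have h1 : (X : ℤ[X]) ^ 5 ∣ f - (1 + X * (C n + X * (C g2 + X * (C g3 + X * C g4)))) * Q := by
    rw [X_pow_dvd_iff]
    intro d hd
    have e : (1 + X * (C n + X * (C g2 + X * (C g3 + X * C g4)))) * Q =
        Q + X * (C n * Q + X * (C g2 * Q + X * (C g3 * Q + X * (C g4 * Q)))) := by ring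
    rw [e]
    have q0 := h.q0
    rcases d with _ | _ | _ | _ | _ | d
    · simp only [coeff_sub, coeff_add, coeff_X_mul_zero]
      rw [hu, q0]; ring
    · simp only [coeff_sub, coeff_add, coeff_X_mul, coeff_X_mul_zero, coeff_C_mul, zero_add]
      rw [q0, hn]; ring
    · simp only [coeff_sub, coeff_add, coeff_X_mul, coeff_X_mul_zero, coeff_C_mul, zero_add]
      rw [q0, hg2]; ring
    · simp only [coeff_sub, coeff_add, coeff_X_mul, coeff_X_mul_zero, coeff_C_mul, zero_add]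
      rw [q0, hg3]; ring
    · simp only [coeff_sub, coeff_add, coeff_X_mul, coeff_X_mul_zero, coeff_C_mul, zero_add]
      rw [q0, hg4]; ring
    · omega
  obtain ⟨W, hW⟩ := h1
  have h2 := congrArg (Polynomial.map (Int.castRingHom ℝ)) hW
  simp only [Polynomial.map_sub, Polynomial.map_mul, Polynomial.map_add, Polynomial.map_one,
    Polynomial.map_X, Polynomial.map_C, Polynomial.map_pow] at h2
  rw [hs] at h2
  refine ⟨(1 - C a * X) * W.map (Int.castRingHom ℝ) +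
    (s * (1 - C a * X)) * (C (g4 : ℝ)), ?_⟩
  unfold p5
  simp only [C_sub, C_mul, C_neg, C_0, C_1] at h2 ⊢
  have e3 : (Int.castRingHom ℝ) n = (n : ℝ) := rfl
  have e4 : (Int.castRingHom ℝ) g2 = (g2 : ℝ) := rfl
  have e5 : (Int.castRingHom ℝ) g3 = (g3 : ℝ) := rfl
  have e6 : (Int.castRingHom ℝ) g4 = (g4 : ℝ) := rfl
  rw [e3, e4, e5, e6] at h2
  linear_combination (1 - C a * X) * h2

end Pool.Agent.B5.Nr.Sch
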