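import Mathlib

/-!
# MP_b5021c_nt, all `θ`: the Schur algorithm for pairs of real polynomials
-/

namespace Pool.Agent.B5.Nr.Sch

open Polynomial

/-- Schur pairs: `R` has no zero in the closed disc and `|F| ≤ |R|` there. -/
structure SP (F R : ℝ[X]) : Prop where
  nz : ∀ z : ℂ, ‖z‖ ≤ 1 → aeval z R ≠ 0
  le : ∀ z : ℂ, ‖z‖ ≤ 1 → ‖aeval z F‖ ≤ ‖aeval z R‖

/-- It is enough to have the inequality on the circle. -/
theorem SP.of_circle {F R : ℝ[X]} (nz : ∀ z : ℂ, ‖z‖ ≤ 1 → aeval z R ≠ 0)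
    (le : ∀ z : ℂ, ‖z‖ = 1 → ‖aeval z F‖ ≤ ‖aeval z R‖) : SP F R := by
  refine ⟨nz, fun z hz => ?_⟩
  have hd : DiffContOnCl ℂ (fun w : ℂ => aeval w F / aeval w R) (Metric.ball 0 1) := by
    have h1 : DifferentiableOn ℂ (fun w : ℂ => aeval w F / aeval w R) (Metric.closedBall 0 1) := by
      refine DifferentiableOn.div ?_ ?_ ?_
      · exact (Polynomial.differentiable_aeval F).differentiableOn
      · exact (Polynomial.differentiable_aeval R).differentiableOn
      · intro w hw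
        exact nz w (by simpa using hw)
    refine ⟨h1.mono Metric.ball_subset_closedBall, ?_⟩
    rw [closure_ball (0 : ℂ) one_ne_zero]
    exact h1.continuousOn
  have h2 := Complex.norm_le_of_forall_mem_frontier_norm_le (U := Metric.ball (0 : ℂ) 1)
    (f := fun w : ℂ => aeval w F / aeval w R) (C := 1) Metric.isBounded_ball hd ?_ (z := z) ?_
  · have h3 : 0 < ‖aeval z R‖ := norm_pos_iff.mpr (nz z hz)
    rw [norm_div, div_le_one h3] at h2
    exact h2
  · intro w hw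
    rw [frontier_ball (0 : ℂ) one_ne_zero] at hw
    have hw1 : ‖w‖ = 1 := by simpa using hw
    have h3 : 0 < ‖aeval w R‖ := norm_pos_iff.mpr (nz w hw1.le)
    rw [norm_div, div_le_one h3]
    exact le w hw1
  · rw [closure_ball (0 : ℂ) one_ne_zero]
    simpa using hz

/-- The elementary inequality. -/
theorem mob {A B : ℂ} {g : ℝ} (hg : |g| ≤ 1) (h : ‖A‖ ≤ ‖B‖) :
    ‖A - g * B‖ ≤ ‖B - g * A‖ := by
  have h1 : ‖A‖ ^ 2 ≤ ‖B‖ ^ 2 := pow_le_pow_left₀ (norm_nonneg _) h 2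
  have h2 : g ^ 2 ≤ 1 := by
    rw [← sq_abs]
    exact pow_le_one₀ (abs_nonneg g) hg
  have h3 : ‖A - g * B‖ ^ 2 ≤ ‖B - g * A‖ ^ 2 := by
    rw [Complex.sq_norm, Complex.sq_norm] at h1 ⊢
    rw [Complex.normSq_apply, Complex.normSq_apply] at h1 ⊢
    simp only [Complex.sub_re, Complex.sub_im, Complex.mul_re, Complex.mul_im,
      Complex.ofReal_re, Complex.ofReal_im, zero_mul, sub_zero, add_zero]
    nlinarith [mul_nonneg (sub_nonneg.mpr h1) (sub_nonneg.mpr h2)]
  exact le_of_sq_le_sq h3 (norm_nonneg _)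

/-- The Schur step. -/
theorem SP.step {F R F' : ℝ[X]} (h : SP F R) {g : ℝ} (hg : |g| < 1)
    (hF : X * F' = F - C g * R) : SP F' (R - C g * F) := by
  have hRe : ∀ z : ℂ, aeval z (R - C g * F) = aeval z R - g * aeval z F := by
    intro z
    simp
  have hFe : ∀ z : ℂ, z * aeval z F' = aeval z F - g * aeval z R := by
    intro z
    have := congrArg (fun p => aeval z p) hF
    simpa using this
  refine SP.of_circle (fun z hz h0 => ?_) (fun z hz => ?_)
  · rw [hRe] at h0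
    have h1 : aeval z R = g * aeval z F := sub_eq_zero.mp h0
    have h2 : ‖aeval z R‖ = |g| * ‖aeval z F‖ := by
      rw [h1, norm_mul, Complex.norm_real, Real.norm_eq_abs]
    have h3 : 0 < ‖aeval z R‖ := norm_pos_iff.mpr (h.nz z hz)
    have h4 := h.le z hz
    have h5 : |g| * ‖aeval z F‖ ≤ |g| * ‖aeval z R‖ :=
      mul_le_mul_of_nonneg_left h4 (abs_nonneg g)
    nlinarith
  · have h1 : ‖aeval z F'‖ = ‖z * aeval z F'‖ := by rw [norm_mul, hz, one_mul]
    rw [h1, hFe, hRe]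
    exact mob hg.le (h.le z hz.le)

theorem aeval_re (P : ℝ[X]) (x : ℝ) : aeval (x : ℂ) P = ((P.eval x : ℝ) : ℂ) := by
  have h : (x : ℂ) = algebraMap ℝ ℂ x := rfl
  rw [h, aeval_algebraMap_apply]
  simp

/-- Values at real points. -/
theorem SP.ev {F R : ℝ[X]} (h : SP F R) {x : ℝ} (hx : |x| ≤ 1) :
    R.eval x ≠ 0 ∧ |F.eval x| ≤ |R.eval x| := by
  have hx' : ‖(x : ℂ)‖ ≤ 1 := by rwa [Complex.norm_real, Real.norm_eq_abs]
  have h1 := h.nz x hx'
  have h2 := h.le x hx'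
  rw [aeval_re] at h1 h2
  rw [aeval_re, Complex.norm_real, Complex.norm_real, Real.norm_eq_abs, Real.norm_eq_abs] at h2
  exact ⟨fun h0 => h1 (by rw [h0]; rfl), h2⟩

/-- `R` does not change its sign on `[-1, 1]`. -/
theorem SP.sign {F R : ℝ[X]} (h : SP F R) {x : ℝ} (hx0 : 0 ≤ x) (hx : x ≤ 1) :
    0 < R.eval 0 * R.eval x := by
  by_contra hcon
  push Not at hcon
  have h0 := (h.ev (x := 0) (by simp)).1
  have hx1 := (h.ev (x := x) (by rw [abs_of_nonneg hx0]; exact hx)).1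
  have hne : R.eval 0 * R.eval x ≠ 0 := mul_ne_zero h0 hx1
  have hlt : R.eval 0 * R.eval x < 0 := lt_of_le_of_ne hcon hne
  have hc : ContinuousOn (fun t => R.eval 0 * R.eval t) (Set.Icc 0 x) := by fun_prop
  have hmem : (0 : ℝ) ∈ Set.Icc (R.eval 0 * R.eval x) (R.eval 0 * R.eval 0) :=
    ⟨hlt.le, mul_self_nonneg _⟩
  obtain ⟨t, ht, ht0⟩ := intermediate_value_Icc' hx0 hc hmem
  have h1 := (h.ev (x := t) (by rw [abs_of_nonneg ht.1]; exact ht.2.trans hx)).1
  exact (mul_ne_zero h0 h1) ht0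

/-- The existence of the quotient in the Schur step. -/
theorem exists_quot (F R : ℝ[X]) {g : ℝ} (h : F.coeff 0 = g * R.coeff 0) :
    ∃ F' : ℝ[X], X * F' = F - C g * R := by
  have h1 : (X : ℝ[X]) ∣ F - C g * R := by
    rw [X_dvd_iff, coeff_sub, coeff_C_mul, h, sub_self]
  obtain ⟨F', hF'⟩ := h1
  exact ⟨F', hF'.symm⟩

theorem SP.coeff_le {F R : ℝ[X]} (h : SP F R) : R.coeff 0 ≠ 0 ∧ |F.coeff 0| ≤ |R.coeff 0| := by
  have := h.ev (x := 0) (by simp)
  rwa [← coeff_zero_eq_eval_zero, ← coeff_zero_eq_eval_zero] at this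

theorem SP.ratio {F R : ℝ[X]} (h : SP F R) {x : ℝ} (hx : |x| ≤ 1) :
    |F.eval x / R.eval x| ≤ 1 := by
  obtain ⟨h1, h2⟩ := h.ev hx
  rw [abs_div, div_le_one (abs_pos.mpr h1)]
  exact h2

/-- The value after one step. -/
theorem SP.step_val {F R F' : ℝ[X]} {g x : ℝ} (hF : X * F' = F - C g * R)
    (hR : R.eval x ≠ 0) (hx : x ≠ 0) (hd : 1 - g * (F.eval x / R.eval x) ≠ 0) :
    F'.eval x / (R - C g * F).eval x =
      (F.eval x / R.eval x - g) / (x * (1 - g * (F.eval x / R.eval x))) := by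
  have e1 : x * F'.eval x = F.eval x - g * R.eval x := by
    have := congrArg (fun p => p.eval x) hF
    simpa using this
  have e2 : (R - C g * F).eval x = R.eval x - g * F.eval x := by simp
  have e3 : R.eval x - g * F.eval x = R.eval x * (1 - g * (F.eval x / R.eval x)) := by
    field_simp
  rw [e2, e3, div_eq_div_iff (mul_ne_zero hR hd) (mul_ne_zero hx hd)]
  have e4 : F.eval x / R.eval x - g = (F.eval x - g * R.eval x) / R.eval x := by
    field_simp
  rw [e4, ← e1]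
  field_simp

/-- Schwarz-Pick for `|g| < 1`. -/
theorem SP.pick_lt {F R : ℝ[X]} (h : SP F R) {g : ℝ} (hg : |g| < 1)
    (h0 : F.coeff 0 = g * R.coeff 0) {x : ℝ} (hx0 : 0 ≤ x) (hx : x ≤ 1) :
    |F.eval x / R.eval x - g| ≤ x * (1 - g * (F.eval x / R.eval x)) := by
  obtain ⟨F', hF'⟩ := exists_quot F R h0
  have h1 := h.step hg hF'
  have hx' : |x| ≤ 1 := by rw [abs_of_nonneg hx0]; exact hx
  have h2 := h1.ratio hx'
  have h3 := h.ratio hx'
  have h4 := (h.ev hx').1
  have hd : 0 < 1 - g * (F.eval x / R.eval x) := by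
    have : |g * (F.eval x / R.eval x)| < 1 := by
      rw [abs_mul]
      calc |g| * |F.eval x / R.eval x| ≤ |g| * 1 :=
            mul_le_mul_of_nonneg_left h3 (abs_nonneg g)
        _ < 1 := by rw [mul_one]; exact hg
    linarith [(abs_lt.mp this).2]
  rcases eq_or_lt_of_le hx0 with hx1 | hx1
  · subst hx1
    have h5 : F.eval 0 = g * R.eval 0 := by
      rw [← coeff_zero_eq_eval_zero, ← coeff_zero_eq_eval_zero]; exact h0
    rw [h5, mul_div_assoc, div_self h4, mul_one, sub_self, abs_zero, zero_mul]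
  · rw [SP.step_val hF' h4 hx1.ne' hd.ne', abs_div, abs_of_pos (mul_pos hx1 hd),
      div_le_one (mul_pos hx1 hd)] at h2
    exact h2

/-- Scaling. -/
theorem SP.scale {F R : ℝ[X]} (h : SP F R) {t : ℝ} (ht : |t| ≤ 1) : SP (C t * F) R := by
  refine ⟨h.nz, fun z hz => ?_⟩
  have h1 : aeval z (C t * F) = (t : ℂ) * aeval z F := by simp
  rw [h1, norm_mul, Complex.norm_real, Real.norm_eq_abs]
  calc |t| * ‖aeval z F‖ ≤ 1 * ‖aeval z F‖ := mul_le_mul_of_nonneg_right ht (norm_nonneg _)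
    _ ≤ ‖aeval z R‖ := by rw [one_mul]; exact h.le z hz

/-- **Schwarz-Pick** at a real point. -/
theorem SP.pick {F R : ℝ[X]} (h : SP F R) {g : ℝ} (h0 : F.coeff 0 = g * R.coeff 0) {x : ℝ}
    (hx0 : 0 ≤ x) (hx : x ≤ 1) :
    |F.eval x / R.eval x - g| ≤ x * (1 - g * (F.eval x / R.eval x)) := by
  obtain ⟨hR, hle⟩ := h.coeff_le
  have hg : |g| ≤ 1 := by
    rw [h0, abs_mul] at hle
    have := abs_pos.mpr hR
    by_contra hcon
    push Not at hcon
    nlinarith
  set r := F.eval x / R.eval x with hr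
  have key : ∀ t ∈ Set.Ico (0 : ℝ) 1, |t * r - t * g| ≤ x * (1 - t * g * (t * r)) := by
    intro t ht
    have h1 := h.scale (t := t) (by rw [abs_of_nonneg ht.1]; exact ht.2.le)
    have h2 : |t * g| < 1 := by
      rw [abs_mul, abs_of_nonneg ht.1]
      calc t * |g| ≤ t * 1 := mul_le_mul_of_nonneg_left hg ht.1
        _ < 1 := by rw [mul_one]; exact ht.2
    have h3 := h1.pick_lt h2 (by rw [coeff_C_mul, h0, mul_assoc]) hx0 hx
    have h4 : (C t * F).eval x / R.eval x = t * r := by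
      rw [eval_mul, eval_C, mul_div_assoc]
    rwa [h4] at h3
  have hcl : (1 : ℝ) ∈ closure (Set.Ico (0 : ℝ) 1) := by
    rw [closure_Ico zero_ne_one]; exact ⟨zero_le_one, le_rfl⟩
  have hc1 : Continuous fun t : ℝ => |t * r - t * g| := by fun_prop
  have hc2 : Continuous fun t : ℝ => x * (1 - t * g * (t * r)) := by fun_prop
  have h5 : (1 : ℝ) ∈ {t : ℝ | |t * r - t * g| ≤ x * (1 - t * g * (t * r))} :=
    closure_minimal (fun t ht => key t ht) (isClosed_le hc1 hc2) hcl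
  simpa using h5

end Pool.Agent.B5.Nr.Sch
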